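import Mathlib

/-! Minors and Cramer's rule. -/

set_option autoImplicit false

namespace Pool.Agent.Helper23.CX

open Set Polynomial

theorem exists_minor {k m : ℕ} (A : Fin k → Fin m → ℂ) (hA : LinearIndependent ℂ A) :
    ∃ I : Fin k → Fin m, (Matrix.of fun i j : Fin k => A i (I j)).det ≠ 0 := by
  classical
  have h1 : (Matrix.of A).rank = k := by
    have := LinearIndependent.rank_matrix (M := Matrix.of A) hA
    simpa using this
  rw [Matrix.rank_eq_finrank_span_cols] at h1
  obtain ⟨f, hf, -, hfi⟩ := Submodule.exists_fun_fin_finrank_span_eq ℂ (range (Matrix.of A).col)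
  choose I hI using hf
  let e : Fin k ≃ Fin (Module.finrank ℂ (Submodule.span ℂ (range (Matrix.of A).col))) :=
    finCongr h1.symm
  refine ⟨fun i => I (e i), ?_⟩
  have h2 : LinearIndependent ℂ (Matrix.of fun i j : Fin k => A i (I (e j))).col := by
    have h3 : (Matrix.of fun i j : Fin k => A i (I (e j))).col = f ∘ e := by
      funext j
      rw [Function.comp_apply, ← hI (e j)]
      rfl
    rw [h3]
    exact hfi.comp _ e.injective
  rw [Matrix.linearIndependent_cols_iff_isUnit, Matrix.isUnit_iff_isUnit_det] at h2
  exact h2.ne_zero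

theorem cramer_span {k m : ℕ} (A : Fin k → Fin m → ℂ) (hA : LinearIndependent ℂ A)
    (I : Fin k → Fin m) (hI : (Matrix.of fun i j : Fin k => A i (I j)).det ≠ 0)
    (G : Fin k → Fin m → ℂ) (hG : ∀ i j, G i j * (Matrix.of fun i j : Fin k => A i (I j)).det =
      (Matrix.of fun i' j' : Fin k => A i' (Function.update I i j j')).det)
    (hGi : LinearIndependent ℂ G) :
    Submodule.span ℂ (range G) = Submodule.span ℂ (range A) := by
  classical
  symm
  apply Submodule.eq_of_le_of_finrank_eq
  · rw [Submodule.span_le]
    rintro _ ⟨l, rfl⟩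
    have h1 : A l = ∑ i, A l (I i) • G i := by
      funext j
      have h2 := congrFun (Matrix.mulVec_cramer (Matrix.of fun i j : Fin k => A i (I j))
        (fun l' => A l' j)) l
      have h3 : ∀ i, Matrix.cramer (Matrix.of fun i j : Fin k => A i (I j))
          (fun l' => A l' j) i = G i j * (Matrix.of fun i j : Fin k => A i (I j)).det := by
        intro i
        rw [hG i j, Matrix.cramer_apply]
        congr 1
        ext a b
        simp only [Matrix.updateCol_apply, Matrix.of_apply, Function.update_apply]
        split_ifs <;> rfl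
      simp only [Matrix.mulVec, dotProduct, Matrix.of_apply, Pi.smul_apply, smul_eq_mul] at h2
      simp only [h3] at h2
      have h4 : (Matrix.of fun i j : Fin k => A i (I j)).det * A l j =
          (Matrix.of fun i j : Fin k => A i (I j)).det * ∑ i, A l (I i) * G i j := by
        rw [← h2, Finset.mul_sum]
        exact Finset.sum_congr rfl fun i _ => by ring
      have h5 := mul_left_cancel₀ hI h4
      simpa [Finset.sum_apply] using h5
    rw [SetLike.mem_coe, h1]
    exact Submodule.sum_mem _ fun i _ => Submodule.smul_mem _ _ (Submodule.subset_span ⟨i, rfl⟩)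
  · rw [finrank_span_eq_card hA, finrank_span_eq_card hGi]

end Pool.Agent.Helper23.CX
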