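import Pool.Agent.Helper91.CX.Stm2

/-! Brackets of vector fields tangent to a distribution. -/

set_option autoImplicit false
set_option linter.unusedSectionVars false

namespace Pool.Agent.Helper23.CX

open Metric Set Topology Pool.Agent.Helper91.CX
open scoped Manifold ContDiff

section basic

variable {n : ℕ} {u u' v : (Fin n → ℂ) → Fin n → ℂ} {p : Fin n → ℂ}

theorem brk_swap (u v : (Fin n → ℂ) → Fin n → ℂ) (y : Fin n → ℂ) : brk u v y = -brk v u y := by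
  simp [brk]

theorem brk_add_left (hu : DifferentiableAt ℂ u p) (hu' : DifferentiableAt ℂ u' p) :
    brk (u + u') v p = brk u v p + brk u' v p := by
  unfold brk
  rw [fderiv_add hu hu', Pi.add_apply, map_add, _root_.add_apply]
  abel

theorem brk_smul_left (c : ℂ) (hu : DifferentiableAt ℂ u p) :
    brk (c • u) v p = c • brk u v p := by
  unfold brk
  rw [fderiv_const_smul hu, Pi.smul_apply, map_smul, _root_.smul_apply, smul_sub]

theorem brk_sub_left (hu : DifferentiableAt ℂ u p) (hu' : DifferentiableAt ℂ u' p) :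
    brk (u - u') v p = brk u v p - brk u' v p := by
  unfold brk
  rw [fderiv_sub hu hu', Pi.sub_apply, map_sub, _root_.sub_apply]
  abel

theorem brk_congr {u u' v v' : (Fin n → ℂ) → Fin n → ℂ} (h : u =ᶠ[𝓝 p] u') (h' : v =ᶠ[𝓝 p] v') :
    brk u v p = brk u' v' p := by
  unfold brk
  rw [h.fderiv_eq, h'.fderiv_eq, h.self_of_nhds, h'.self_of_nhds]

/-- the coordinate change commutes with brackets -/
theorem brk_change {τ : (Fin n → ℂ) → Fin n → ℂ} {p : Fin n → ℂ}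
    (hτ : ContDiffAt ℂ ω τ p) {u v u₁ v₁ : (Fin n → ℂ) → Fin n → ℂ}
    (hu : DifferentiableAt ℂ u p) (hv : DifferentiableAt ℂ v p)
    (hu₁ : DifferentiableAt ℂ u₁ (τ p)) (hv₁ : DifferentiableAt ℂ v₁ (τ p))
    (eu : ∀ᶠ y in 𝓝 p, u₁ (τ y) = fderiv ℂ τ y (u y))
    (ev : ∀ᶠ y in 𝓝 p, v₁ (τ y) = fderiv ℂ τ y (v y)) :
    brk u₁ v₁ (τ p) = fderiv ℂ τ p (brk u v p) := by
  have hτd : DifferentiableAt ℂ τ p := hτ.differentiableAt (by simp)
  have hτ2 : DifferentiableAt ℂ (fderiv ℂ τ) p := by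
    have h1 : ContDiffAt ℂ 1 (fderiv ℂ τ) p := hτ.fderiv_right (m := 1) (by simp)
    exact h1.differentiableAt (by simp)
  have hsymm : IsSymmSndFDerivAt ℂ τ p := hτ.isSymmSndFDerivAt (by simp)
  have key : ∀ (v v₁ : (Fin n → ℂ) → Fin n → ℂ), DifferentiableAt ℂ v p →
      DifferentiableAt ℂ v₁ (τ p) → (∀ᶠ y in 𝓝 p, v₁ (τ y) = fderiv ℂ τ y (v y)) → ∀ h,
      fderiv ℂ v₁ (τ p) (fderiv ℂ τ p h) =
        fderiv ℂ (fderiv ℂ τ) p h (v p) + fderiv ℂ τ p (fderiv ℂ v p h) := by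
    intro v v₁ hv hv₁ ev h
    have h1 : HasFDerivAt (fun y => v₁ (τ y)) ((fderiv ℂ v₁ (τ p)).comp (fderiv ℂ τ p)) p :=
      hv₁.hasFDerivAt.comp p hτd.hasFDerivAt
    have h2 := hτ2.hasFDerivAt.clm_apply hv.hasFDerivAt
    have h3 : HasFDerivAt (fun y => v₁ (τ y)) _ p := h2.congr_of_eventuallyEq ev
    have h4 := h1.unique h3
    have h5 := congrArg (fun A => A h) h4
    simp only [ContinuousLinearMap.comp_apply, _root_.add_apply,
      ContinuousLinearMap.flip_apply] at h5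
    rw [h5]; abel
  unfold brk
  rw [eu.self_of_nhds, ev.self_of_nhds, key v v₁ hv hv₁ ev, key u u₁ hu hu₁ eu,
    hsymm (u p) (v p), map_sub]
  abel

end basic

variable {n : ℕ} {X : Type} [TopologicalSpace X] [ChartedSpace (Fin n → ℂ) X]

theorem Dom.mono_left {φ : Ch n X} {M : Set X} {W W' : Set (Fin n → ℂ)} (h : Dom φ M W)
    (hW' : IsOpen W') (hs : W' ⊆ W) : Dom φ M W' :=
  ⟨hW', hs.trans h.2.1, fun y hy => h.2.2 y (hs hy)⟩

theorem Dom.inter {φ : Ch n X} {M : Set X} {W W' : Set (Fin n → ℂ)} (h : Dom φ M W)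
    (hW' : IsOpen W') : Dom φ M (W ∩ W') :=
  Dom.mono_left h (h.1.inter hW') inter_subset_left

theorem Tan.mono {φ : Ch n X} {M : Set X} {𝓕 : Ch n X → X → Submodule ℂ (Fin n → ℂ)}
    {W W' : Set (Fin n → ℂ)} {u : (Fin n → ℂ) → Fin n → ℂ} (h : Tan M 𝓕 φ W u) (hW' : IsOpen W')
    (hs : W' ⊆ W) : Tan M 𝓕 φ W' u :=
  ⟨Dom.mono_left h.1 hW' hs, h.2.1.mono hs, fun y hy => h.2.2 y (hs hy)⟩

/-- derivatives, at zeros, of tangent fields are tangent -/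
theorem fderiv_mem (hCr : S_Cramer) {M : Set X} {𝓕 : Ch n X → X → Submodule ℂ (Fin n → ℂ)} {r : ℕ}
    (hF : IsDist M 𝓕 r) {φ : Ch n X} (hφ : φ ∈ Charts n X) {x : X} (hx : x ∈ φ.source)
    (hxM : x ∈ M) {W : Set (Fin n → ℂ)} {u : (Fin n → ℂ) → Fin n → ℂ} (hT : Tan M 𝓕 φ W u)
    (hxW : φ x ∈ W) (h0 : u (φ x) = 0) (h : Fin n → ℂ) : fderiv ℂ u (φ x) h ∈ 𝓕 φ x := by
  obtain ⟨W₁, e, hD, hx₁, hHol, hFr⟩ := hF.frame φ hφ x hx hxM
  have hspan : ∀ y ∈ W₁, Submodule.span ℂ (range (e y)) = 𝓕 φ (φ.symm y) := fun y hy =>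
    (hFr y hy).2
  obtain ⟨W', c, hW'o, hpW', hW'W, hc, hind, huc⟩ := hCr n n r (W ∩ W₁) (W ∩ W₁) (φ x) e u
    (hT.1.1.inter hD.1) ⟨hxW, hx₁⟩ (fun i j => (hHol i j).mono inter_subset_right)
    (hT.2.1.mono inter_subset_left) (hFr _ hx₁).1 subset_closure le_rfl
    (fun y hy => by rw [hspan y hy.2]; exact hT.2.2 y hy.1)
  have hc0 : ∀ i, c (φ x) i = 0 := by
    have h1 := huc (φ x) hpW'
    rw [h0] at h1
    exact Fintype.linearIndependent_iff.mp (hFr _ hx₁).1 (c (φ x)) h1.symm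
  have hev : u =ᶠ[𝓝 (φ x)] fun y => ∑ i, c y i • e y i := by
    filter_upwards [hW'o.mem_nhds hpW'] with y hy using huc y hy
  have hcd : ∀ i, HasFDerivAt (fun y => c y i) (fderiv ℂ (fun y => c y i) (φ x)) (φ x) := fun i =>
    ((hc i).differentiableAt (hW'o.mem_nhds hpW')).hasFDerivAt
  have hed : ∀ i, HasFDerivAt (fun y => e y i) (fderiv ℂ (fun y => e y i) (φ x)) (φ x) := fun i => by
    have h1 : DifferentiableOn ℂ (fun y => e y i) W₁ := differentiableOn_pi.mpr fun j => hHol i j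
    exact (h1.differentiableAt (hD.1.mem_nhds hx₁)).hasFDerivAt
  have hd := HasFDerivAt.fun_sum fun i (_ : i ∈ Finset.univ) => (hcd i).smul (hed i)
  have hd' : HasFDerivAt (fun y => ∑ i, c y i • e y i) (∑ i, (c (φ x) i •
    fderiv ℂ (fun y => e y i) (φ x) + (fderiv ℂ (fun y => c y i) (φ x)).smulRight (e (φ x) i)))
    (φ x) := hd
  rw [hev.fderiv_eq, hd'.fderiv]
  rw [_root_.sum_apply]
  refine Submodule.sum_mem _ fun i _ => ?_
  have h3 : (c (φ x) i • fderiv ℂ (fun y => e y i) (φ x) +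
      (fderiv ℂ (fun y => c y i) (φ x)).smulRight (e (φ x) i)) h =
      (fderiv ℂ (fun y => c y i) (φ x) h) • e (φ x) i := by
    change c (φ x) i • (fderiv ℂ (fun y => e y i) (φ x) h) +
      (fderiv ℂ (fun y => c y i) (φ x) h) • e (φ x) i = _
    rw [hc0 i, zero_smul, zero_add]
  rw [h3]
  refine Submodule.smul_mem (𝓕 φ x) _ ?_
  have h2 := hspan _ hx₁
  rw [φ.left_inv hx] at h2
  rw [← h2]
  exact Submodule.subset_span ⟨i, rfl⟩

/-- the bracket at a point depends, modulo the distribution, on the values only -/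
theorem brk_sub_mem (hCr : S_Cramer) {M : Set X} {𝓕 : Ch n X → X → Submodule ℂ (Fin n → ℂ)} {r : ℕ}
    (hF : IsDist M 𝓕 r) {φ : Ch n X} (hφ : φ ∈ Charts n X) {x : X} (hx : x ∈ φ.source)
    (hxM : x ∈ M) {W₁ W₂ W₃ W₄ : Set (Fin n → ℂ)} {u u' v v' : (Fin n → ℂ) → Fin n → ℂ}
    (h1 : Tan M 𝓕 φ W₁ u) (h2 : Tan M 𝓕 φ W₂ u') (h3 : Tan M 𝓕 φ W₃ v) (h4 : Tan M 𝓕 φ W₄ v')
    (hx1 : φ x ∈ W₁) (hx2 : φ x ∈ W₂) (hx3 : φ x ∈ W₃) (hx4 : φ x ∈ W₄)
    (hu : u (φ x) = u' (φ x)) (hv : v (φ x) = v' (φ x)) :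
    brk u v (φ x) - brk u' v' (φ x) ∈ 𝓕 φ x := by
  have hsub : ∀ {W₁ W₂ : Set (Fin n → ℂ)} {u u' : (Fin n → ℂ) → Fin n → ℂ}, Tan M 𝓕 φ W₁ u →
      Tan M 𝓕 φ W₂ u' → Tan M 𝓕 φ (W₁ ∩ W₂) (u - u') := by
    intro W₁ W₂ u u' h1 h2
    exact ⟨Dom.inter h1.1 h2.1.1, (h1.2.1.mono inter_subset_left).sub (h2.2.1.mono
      inter_subset_right), fun y hy => Submodule.sub_mem _ (h1.2.2 y hy.1) (h2.2.2 y hy.2)⟩
  have hdif : ∀ {W₁ : Set (Fin n → ℂ)} {u : (Fin n → ℂ) → Fin n → ℂ}, Tan M 𝓕 φ W₁ u →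
      φ x ∈ W₁ → DifferentiableAt ℂ u (φ x) := fun h hx =>
    h.2.1.differentiableAt (h.1.1.mem_nhds hx)
  have key : ∀ {W₁ W₂ : Set (Fin n → ℂ)} {u v : (Fin n → ℂ) → Fin n → ℂ}, Tan M 𝓕 φ W₁ u →
      Tan M 𝓕 φ W₂ v → φ x ∈ W₁ → φ x ∈ W₂ → u (φ x) = 0 → brk u v (φ x) ∈ 𝓕 φ x := by
    intro W₁ W₂ u v h1 h2 hx1 hx2 h0
    unfold brk
    rw [h0, map_zero, zero_sub]
    exact Submodule.neg_mem _ (fderiv_mem hCr hF hφ hx hxM h1 hx1 h0 _)
  have e1 : brk u v (φ x) - brk u' v' (φ x) = brk (u - u') v (φ x) - brk (v - v') u' (φ x) := by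
    rw [brk_sub_left (hdif h1 hx1) (hdif h2 hx2), brk_sub_left (hdif h3 hx3) (hdif h4 hx4),
      brk_swap v u', brk_swap v' u']
    abel
  rw [e1]
  refine Submodule.sub_mem _ (key (hsub h1 h2) h3 ⟨hx1, hx2⟩ hx3 ?_)
    (key (hsub h3 h4) h2 ⟨hx3, hx4⟩ hx2 ?_)
  · simp [hu]
  · simp [hv]

end Pool.Agent.Helper23.CX
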