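import Pool.Agent.Helper23.CX.Van

/-! (Q9) The distribution generated by the brackets has no tensors. -/

set_option autoImplicit false
set_option linter.unusedSectionVars false

namespace Pool.Agent.Helper23.CX

open Metric Set Topology Pool.Agent.Helper91.CX
open scoped Manifold ContDiff

variable {n : ℕ} {X : Type} [TopologicalSpace X] [ChartedSpace (Fin n → ℂ) X]

theorem restrict_dist {M M' : Set X} {𝓕 𝓕' : Ch n X → X → Submodule ℂ (Fin n → ℂ)} {r r' : ℕ}
    (hF : IsDist M 𝓕 r) (hF' : IsDist M' 𝓕' r') (hM' : M' ⊆ M) : IsDist M' 𝓕 r := by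
  refine ⟨hF'.isOpen, ?_, hF'.inv, ?_⟩
  · intro φ hφ x hx hxM
    obtain ⟨W, e, hD, hxW, hH, hFr⟩ := hF.frame φ hφ x hx (hM' hxM)
    refine ⟨W ∩ (φ.target ∩ φ.symm ⁻¹' M'), e, ⟨?_, ?_, ?_⟩, ⟨hxW, φ.map_source hx, ?_⟩, ?_, ?_⟩
    · exact hD.1.inter (φ.isOpen_inter_preimage_symm hF'.isOpen)
    · exact fun y hy => hy.2.1
    · exact fun y hy => hy.2.2
    · rw [mem_preimage, φ.left_inv hx]; exact hxM
    · exact fun i j => (hH i j).mono inter_subset_left
    · exact fun y hy => hFr y hy.1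
  · intro F φ hφ ψ hψ x hx hxM hFx
    exact hF.nat F φ hφ ψ hψ x hx (hM' hxM) hFx

theorem vanish {M M' G : Set X} {𝓕 𝓕' : Ch n X → X → Submodule ℂ (Fin n → ℂ)} {r r' : ℕ}
    (hCr : S_Cramer) (hCh : S_Chart n X) (hDer : S_Der) (hSE : S_SecExt n X)
    (hF : IsDist M 𝓕 r) (hF' : IsDist M' 𝓕' r') (hM' : M' ⊆ M) (hMc : M ⊆ closure M')
    (hRem : Rem n M' M) (hB : BrkOf M' G 𝓕 𝓕') (hno : ∀ N, 0 < N → NoSec (tenL r N) M 𝓕) :
    ∀ (d : ℕ) (κ : Type) (_ : Fintype κ) (_ : DecidableEq κ) (_ : Nonempty κ) (S : Finset κ),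
      S.card = d → ∀ T : Ch n X → X → (κ → Fin n → ℂ) → ℂ, MT S M' 𝓕 𝓕' T →
      ∀ φ ∈ Charts n X, ∀ x ∈ φ.source, x ∈ M' → ∀ w : κ → Fin n → ℂ,
        (∀ k, w k ∈ Sl S 𝓕 𝓕' k φ x) → T φ x w = 0 := by
  obtain ⟨hle, hbr, hGo, hGM, hMG, hspan⟩ := hB
  have hFr' : IsDist M' 𝓕 r := restrict_dist hF hF' hM'
  intro d
  induction d with
  | zero =>
    intro κ _ _ _ S hS T hT φ hφ x hx hxM w hw
    rw [Finset.card_eq_zero] at hS
    subst hS
    refine base hSE hF hF'.isOpen hM' hMc hRem hno T hT hφ hx hxM w fun k => ?_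
    have := hw k
    rwa [Sl_not (by simp)] at this
  | succ d ih =>
    intro κ _ _ _ S hS T hT φ hφ x hx hxM w hw
    obtain ⟨k₀, hk₀⟩ : S.Nonempty := by
      rw [← Finset.card_pos]; omega
    have hSk : Sl S 𝓕 𝓕' k₀ = 𝓕' := Sl_mem hk₀
    have hce : (S.erase k₀).card = d := by rw [Finset.card_erase_of_mem hk₀]; omega
    have hkill : ∀ φ ∈ Charts n X, ∀ x ∈ φ.source, x ∈ M' → ∀ w : κ → Fin n → ℂ,
        (∀ k, w k ∈ Sl S 𝓕 𝓕' k φ x) → w k₀ ∈ 𝓕 φ x → T φ x w = 0 := by
      intro φ hφ x hx hxM w hw hw0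
      refine ih κ _ _ inferInstance (S.erase k₀) hce T (restrict hle k₀ hT) φ hφ x hx hxM w ?_
      intro k
      by_cases hk : k = k₀
      · subst hk
        rw [Sl_not (by simp)]; exact hw0
      · have := hw k
        by_cases h : k ∈ S
        · rw [Sl_mem h] at this
          rwa [Sl_mem (Finset.mem_erase.mpr ⟨hk, h⟩)]
        · rw [Sl_not h] at this
          rwa [Sl_not (fun h' => h (Finset.mem_of_mem_erase h'))]
    have hTB := ih (Option κ) inferInstance inferInstance inferInstance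
      ((S.erase k₀).map Function.Embedding.some) (by rw [Finset.card_map, hce]) _
      (mt_TB hCr hCh hDer hFr' hF' hle hbr hT hk₀ hkill)
    have hbrk : ∀ φ ∈ Charts n X, ∀ x ∈ φ.source, x ∈ M' → ∀ w : κ → Fin n → ℂ,
        (∀ k, w k ∈ Sl S 𝓕 𝓕' k φ x) → ∀ u v, TanAt M' 𝓕 φ x u → TanAt M' 𝓕 φ x v →
        brk u v (φ x) ∈ 𝓕' φ x ∧ T φ x (Function.update w k₀ (brk u v (φ x))) = 0 := by
      intro φ hφ x hx hxM w hw u v hu hv
      have hval : ∀ {u}, TanAt M' 𝓕 φ x u → u (φ x) ∈ 𝓕 φ x := by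
        rintro u ⟨W, hW, hxW⟩
        have := hW.2.2 _ hxW
        rwa [φ.left_inv hx] at this
      have hm : brk u v (φ x) ∈ 𝓕' φ x := by
        obtain ⟨W1, hW1, hx1⟩ := hu
        obtain ⟨W2, hW2, hx2⟩ := hv
        have h := hbr φ hφ (W1 ∩ W2) _ _ (Tan.mono hW1 (hW1.1.1.inter hW2.1.1) inter_subset_left)
          (Tan.mono hW2 (hW1.1.1.inter hW2.1.1) inter_subset_right) (φ x) ⟨hx1, hx2⟩
        rwa [φ.left_inv hx] at h
      refine ⟨hm, ?_⟩
      rw [← T_congr hle hT hk₀ hkill hφ hx hxM hw hm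
        (bb_eq hCr hFr' hφ hx hxM hu hv (hval hu) (hval hv))]
      have h1 := hTB φ hφ x hx hxM (fun o => Option.casesOn o (v (φ x))
        (fun k => if k = k₀ then u (φ x) else w k)) (by
          intro o
          cases o with
          | none => rw [Sl_none]; exact hval hv
          | some k =>
            rw [Sl_some]
            by_cases hk : k = k₀
            · subst hk
              simp only [if_true]
              rw [Sl_not (by simp)]; exact hval hu
            · simp only [if_neg hk]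
              have := hw k
              by_cases h : k ∈ S
              · rw [Sl_mem h] at this
                rwa [Sl_mem (Finset.mem_erase.mpr ⟨hk, h⟩)]
              · rw [Sl_not h] at this
                rwa [Sl_not (fun h' => h (Finset.mem_of_mem_erase h'))])
      unfold TB at h1
      simp only [if_true] at h1
      rw [← h1]
      congr 1
      funext k
      by_cases hk : k = k₀
      · subst hk; simp
      · rw [Function.update_of_ne hk, Function.update_of_ne hk, if_neg hk]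
    -- vanishing on `G`
    have hG : ∀ φ ∈ Charts n X, ∀ x ∈ φ.source, x ∈ G → ∀ w : κ → Fin n → ℂ,
        (∀ k, w k ∈ Sl S 𝓕 𝓕' k φ x) → T φ x w = 0 := by
      intro φ hφ x hx hxG w hw
      have hxM := hGM hxG
      have hw0 : w k₀ ∈ 𝓕' φ x := by have := hw k₀; rwa [hSk] at this
      have key : ∀ v ∈ Submodule.span ℂ ({w | w ∈ 𝓕 φ x} ∪ {w | ∃ W u v, Tan M' 𝓕 φ W u ∧
          Tan M' 𝓕 φ W v ∧ φ x ∈ W ∧ w = brk u v (φ x)}),
          v ∈ 𝓕' φ x ∧ T φ x (Function.update w k₀ v) = 0 := by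
        intro v hv
        induction hv using Submodule.span_induction with
        | mem v hv =>
          rcases hv with hv | ⟨W, u, v', hu, hv', hxW, rfl⟩
          · refine ⟨hle φ hφ x hx hxM hv, hkill φ hφ x hx hxM _ ?_ ?_⟩
            · intro k
              by_cases hk : k = k₀
              · subst hk; rw [Function.update_self, hSk]; exact hle φ hφ x hx hxM hv
              · rw [Function.update_of_ne hk]; exact hw k
            · rw [Function.update_self]; exact hv
          · exact hbrk φ hφ x hx hxM w hw u v' ⟨W, hu, hxW⟩ ⟨W, hv', hxW⟩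
        | zero =>
          refine ⟨Submodule.zero_mem _, ?_⟩
          have h1 := hT.smul φ hφ x hx hxM w hw k₀ 0 (Submodule.zero_mem _) 0
          rwa [zero_smul, zero_mul] at h1
        | add v v' _ _ h h' =>
          refine ⟨Submodule.add_mem _ h.1 h'.1, ?_⟩
          rw [hT.add φ hφ x hx hxM w hw k₀ v (by rw [hSk]; exact h.1) v' (by rw [hSk]; exact h'.1),
            h.2, h'.2, add_zero]
        | smul c v _ h =>
          refine ⟨Submodule.smul_mem _ c h.1, ?_⟩
          rw [hT.smul φ hφ x hx hxM w hw k₀ v (by rw [hSk]; exact h.1) c, h.2, mul_zero]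
      have := (key (w k₀) (hspan φ hφ x hx hxG hw0)).2
      rwa [Function.update_eq_self] at this
    -- continuity
    have hSd : ∀ k, ∃ ρ, IsDist M' (Sl S 𝓕 𝓕' k) ρ := by
      intro k
      by_cases h : k ∈ S
      · rw [Sl_mem h]; exact ⟨r', hF'⟩
      · rw [Sl_not h]; exact ⟨r, hFr'⟩
    have hex : ∀ k, ∃ u, TanAt M' (Sl S 𝓕 𝓕' k) φ x u ∧ u (φ x) = w k := by
      intro k
      obtain ⟨ρ, hρ⟩ := hSd k
      exact ext_vec hρ hφ hx hxM (hw k)
    choose u hu hux using hex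
    choose W hW hxW using hu
    have hWo : IsOpen (⋂ k, W k) := isOpen_iInter_of_finite fun k => (hW k).1.1
    have hDW : Dom φ M' (⋂ k, W k) :=
      Dom.mono_left (hW (Classical.arbitrary κ)).1 hWo (iInter_subset _ _)
    have hhol := hT.hol φ hφ (⋂ k, W k) (fun y k => u k y) hDW
      (fun k => (hW k).2.1.mono (iInter_subset _ _))
      (fun y hy k => (hW k).2.2 y (mem_iInter.mp hy k))
    have hxI : φ x ∈ ⋂ k, W k := mem_iInter.mpr hxW
    have hcont := (hhol.differentiableAt (hWo.mem_nhds hxI)).continuousAt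
    have hTx : T φ x w = (fun y => T φ (φ.symm y) (fun k => u k y)) (φ x) := by
      simp only
      rw [φ.left_inv hx]
      congr 1
      funext k
      exact (hux k).symm
    by_contra hne
    rw [hTx] at hne
    have h1 : ∀ᶠ y in 𝓝 (φ x), (fun y => T φ (φ.symm y) (fun k => u k y)) y ≠ 0 ∧ y ∈ ⋂ k, W k :=
      (hcont.eventually_ne hne).and (hWo.mem_nhds hxI)
    have h2 := (φ.continuousAt hx).eventually h1
    have h3 : ∃ᶠ x' in 𝓝 x, x' ∈ G := mem_closure_iff_frequently.mp (hMG hxM)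
    obtain ⟨x', hx'G, ⟨h4, h5⟩, h6⟩ := (h3.and_eventually
      (h2.and (φ.open_source.mem_nhds hx))).exists
    apply h4
    simp only
    rw [φ.left_inv h6]
    refine hG φ hφ x' h6 hx'G _ fun k => ?_
    have := (hW k).2.2 _ (mem_iInter.mp h5 k)
    rwa [φ.left_inv h6] at this

section ini

open Classical in
/-- coordinates with respect to a frame -/
noncomputable def co {m r : ℕ} (g : Fin r → Fin m → ℂ) (v : Fin m → ℂ) : Fin r → ℂ :=
  if h : ∃ c : Fin r → ℂ, ∑ i, c i • g i = v then h.choose else 0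

theorem co_spec {m r : ℕ} {g : Fin r → Fin m → ℂ} {v : Fin m → ℂ}
    (h : v ∈ Submodule.span ℂ (range g)) : ∑ i, co g v i • g i = v := by
  have h' := (Submodule.mem_span_range_iff_exists_fun ℂ).mp h
  unfold co
  rw [dif_pos h']
  exact h'.choose_spec

theorem co_unique {m r : ℕ} {g : Fin r → Fin m → ℂ} (hg : LinearIndependent ℂ g) {v : Fin m → ℂ}
    {c : Fin r → ℂ} (h : ∑ i, c i • g i = v) : co g v = c := by
  have hv : v ∈ Submodule.span ℂ (range g) := by
    rw [Submodule.mem_span_range_iff_exists_fun]; exact ⟨c, h⟩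
  have h1 := co_spec hv
  rw [← h] at h1
  have h2 : ∑ i, (co g (∑ i, c i • g i) i - c i) • g i = 0 := by
    simp only [sub_smul, Finset.sum_sub_distrib, h1, sub_self]
  have h3 := Fintype.linearIndependent_iff.mp hg _ h2
  rw [← h]
  funext i
  exact sub_eq_zero.mp (h3 i)

open Classical in
/-- a frame at a point -/
noncomputable def fr {r : ℕ} (𝓕 : Ch n X → X → Submodule ℂ (Fin n → ℂ)) (φ : Ch n X) (x : X) :
    Fin r → Fin n → ℂ := if h : ∃ e, Fr 𝓕 φ x e then h.choose else 0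

theorem fr_spec {M : Set X} {r : ℕ} {𝓕 : Ch n X → X → Submodule ℂ (Fin n → ℂ)}
    (hF : IsDist M 𝓕 r) {φ : Ch n X} (hφ : φ ∈ Charts n X) {x : X} (hx : x ∈ φ.source)
    (hxM : x ∈ M) : Fr 𝓕 φ x (fr (r := r) 𝓕 φ x) := by
  obtain ⟨W, e, hD, hxW, hH, hFr⟩ := hF.frame φ hφ x hx hxM
  have h : ∃ e : Fin r → Fin n → ℂ, Fr 𝓕 φ x e := ⟨e (φ x), by
    have := hFr _ hxW
    rwa [φ.left_inv hx] at this⟩
  unfold fr
  rw [dif_pos h]
  exact h.choose_spec

/-- the mixed tensor of a section -/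
noncomputable def T0 {r N : ℕ} (𝓕 : Ch n X → X → Submodule ℂ (Fin n → ℂ))
    (s : Ch n X → X → (Fin r → Fin n → ℂ) → (tenL r N).Ix → ℂ) (φ : Ch n X) (x : X)
    (w : Fin N → Fin n → ℂ) : ℂ :=
  ∑ I : Fin N → Fin r, (∏ k, co (fr (r := r) 𝓕 φ x) (w k) (I k)) * s φ x (fr 𝓕 φ x) I

variable {M : Set X} {r N : ℕ} {𝓕 : Ch n X → X → Submodule ℂ (Fin n → ℂ)}
  {s : Ch n X → X → (Fin r → Fin n → ℂ) → (tenL r N).Ix → ℂ}

theorem T0_eq (hF : IsDist M 𝓕 r) (hs : IsSec (tenL r N) M 𝓕 s) {φ : Ch n X}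
    (hφ : φ ∈ Charts n X) {x : X} (hx : x ∈ φ.source) (hxM : x ∈ M) {e : Fin r → Fin n → ℂ}
    (he : Fr 𝓕 φ x e) {w : Fin N → Fin n → ℂ} (hw : ∀ k, w k ∈ 𝓕 φ x) :
    T0 𝓕 s φ x w = ∑ I : Fin N → Fin r, (∏ k, co e (w k) (I k)) * s φ x e I := by
  set g : Fin r → Fin n → ℂ := fr 𝓕 φ x with hg
  have hgF : Fr 𝓕 φ x g := fr_spec hF hφ hx hxM
  let C : Matrix (Fin r) (Fin r) ℂ := fun i j => co g (e i) j
  have hC : ∀ i, ∑ j, C i j • g j = e i := fun i => co_spec (by
    rw [hgF.2, ← he.2]; exact Submodule.subset_span ⟨i, rfl⟩)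
  have hmv : mv C g = e := funext hC
  have hdet : C.det ≠ 0 := by
    intro h0
    obtain ⟨z, hz0, hz⟩ := Matrix.exists_vecMul_eq_zero_iff.mpr h0
    apply hz0
    have h1 : ∑ i, z i • e i = 0 := by
      calc ∑ i, z i • e i = ∑ i, ∑ j, (z i * C i j) • g j := by
            refine Finset.sum_congr rfl fun i _ => ?_
            rw [← hC i, Finset.smul_sum]
            exact Finset.sum_congr rfl fun j _ => by rw [smul_smul]
        _ = ∑ j, (∑ i, z i * C i j) • g j := by
            rw [Finset.sum_comm]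
            exact Finset.sum_congr rfl fun j _ => by rw [Finset.sum_smul]
        _ = 0 := by
            refine Finset.sum_eq_zero fun j _ => ?_
            have h2 := congrFun hz j
            simp only [Matrix.vecMul, dotProduct, Pi.zero_apply] at h2
            rw [h2, zero_smul]
    funext i
    exact Fintype.linearIndependent_iff.mp he.1 z h1 i
  have hlaw := fun J => hs.law φ hφ x hx hxM g hgF C hdet J
  rw [hmv] at hlaw
  have hco : ∀ k i, ∑ j, co e (w k) j * C j i = co g (w k) i := by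
    intro k i
    have h1 : ∑ i, (∑ j, co e (w k) j * C j i) • g i = w k := by
      calc ∑ i, (∑ j, co e (w k) j * C j i) • g i
          = ∑ i, ∑ j, co e (w k) j • (C j i • g i) := by
            refine Finset.sum_congr rfl fun i _ => ?_
            rw [Finset.sum_smul]
            exact Finset.sum_congr rfl fun j _ => by rw [smul_smul]
        _ = ∑ j, co e (w k) j • ∑ i, C j i • g i := by
            rw [Finset.sum_comm]
            exact Finset.sum_congr rfl fun j _ => by rw [Finset.smul_sum]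
        _ = w k := by
            simp only [hC]
            exact co_spec (by rw [he.2]; exact hw k)
    exact (congrFun (co_unique hgF.1 h1) i).symm
  have h2 : ∀ J : Fin N → Fin r, s φ x e J =
      ∑ I : Fin N → Fin r, (∏ k, C (J k) (I k)) * s φ x g I := fun J => hlaw J
  unfold T0
  rw [← hg]
  simp only [h2]
  symm
  calc ∑ J : Fin N → Fin r, (∏ k, co e (w k) (J k)) * ∑ I : Fin N → Fin r,
        (∏ k, C (J k) (I k)) * s φ x g I
      = ∑ I : Fin N → Fin r, ∑ J : Fin N → Fin r,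
        (∏ k, co e (w k) (J k) * C (J k) (I k)) * s φ x g I := by
        rw [Finset.sum_comm]
        refine Finset.sum_congr rfl fun J _ => ?_
        rw [Finset.mul_sum]
        refine Finset.sum_congr rfl fun I _ => ?_
        rw [Finset.prod_mul_distrib]; ring
    _ = ∑ I : Fin N → Fin r, (∏ k, co g (w k) (I k)) * s φ x g I := by
        refine Finset.sum_congr rfl fun I _ => ?_
        rw [← Finset.sum_mul]
        congr 1
        have h3 := Finset.prod_univ_sum (fun _ : Fin N => (Finset.univ : Finset (Fin r)))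
          (fun k j => co e (w k) j * C j (I k))
        rw [Fintype.piFinset_univ] at h3
        rw [← h3]
        exact Finset.prod_congr rfl fun k _ => hco k (I k)

/-- the multilinear form of a tensor with the components `a` -/
noncomputable def mlf {r N : ℕ} (a : (Fin N → Fin r) → ℂ) :
    MultilinearMap ℂ (fun _ : Fin N => Fin r → ℂ) ℂ :=
  ∑ I : Fin N → Fin r, a I • (MultilinearMap.mkPiAlgebra ℂ (Fin N) ℂ).compLinearMap
    (fun k => LinearMap.proj (I k))

theorem mlf_apply {r N : ℕ} (a : (Fin N → Fin r) → ℂ) (c : Fin N → Fin r → ℂ) :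
    mlf a c = ∑ I : Fin N → Fin r, (∏ k, c k (I k)) * a I := by
  unfold mlf
  rw [_root_.sum_apply]
  refine Finset.sum_congr rfl fun I _ => ?_
  simp [mul_comm]

theorem mt_T0 (hCr : S_Cramer) (hCh : S_Chart n X) (𝓖 : Ch n X → X → Submodule ℂ (Fin n → ℂ))
    (hF : IsDist M 𝓕 r) (hs : IsSec (tenL r N) M 𝓕 s) :
    MT (Finset.univ : Finset (Fin N)) M 𝓖 𝓕 (T0 𝓕 s) := by
  have hSl : ∀ k : Fin N, Sl (Finset.univ : Finset (Fin N)) 𝓖 𝓕 k = 𝓕 := fun k =>
    Sl_mem (Finset.mem_univ k)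
  have hT0 : ∀ φ x w, T0 𝓕 s φ x w = mlf (fun I => s φ x (fr 𝓕 φ x) I)
      (fun k => co (fr (r := r) 𝓕 φ x) (w k)) := by
    intro φ x w
    rw [mlf_apply]; rfl
  have hupd : ∀ (φ : Ch n X) (x : X) (w : Fin N → Fin n → ℂ) k v,
      (fun k' => co (fr (r := r) 𝓕 φ x) (Function.update w k v k')) =
      Function.update (fun k' => co (fr (r := r) 𝓕 φ x) (w k')) k (co (fr 𝓕 φ x) v) := by
    intro φ x w k v
    funext k'
    by_cases hk : k' = k
    · subst hk; simp
    · rw [Function.update_of_ne hk, Function.update_of_ne hk]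
  refine ⟨?_, ?_, ?_, ?_⟩
  · intro φ hφ x hx hxM w _ k v hv v' hv'
    rw [hSl] at hv hv'
    have hf : Fr 𝓕 φ x (fr (r := r) 𝓕 φ x) := fr_spec hF hφ hx hxM
    rw [← hf.2] at hv hv'
    rw [hT0, hT0, hT0, hupd, hupd, hupd]
    have h1 : co (fr (r := r) 𝓕 φ x) (v + v') = co (fr 𝓕 φ x) v + co (fr 𝓕 φ x) v' := by
      apply co_unique hf.1
      simp only [Pi.add_apply, add_smul, Finset.sum_add_distrib]
      rw [co_spec hv, co_spec hv']
    rw [h1, MultilinearMap.map_update_add]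
  · intro φ hφ x hx hxM w _ k v hv c
    rw [hSl] at hv
    have hf : Fr 𝓕 φ x (fr (r := r) 𝓕 φ x) := fr_spec hF hφ hx hxM
    rw [← hf.2] at hv
    rw [hT0, hT0, hupd, hupd]
    have h1 : co (fr (r := r) 𝓕 φ x) (c • v) = c • co (fr 𝓕 φ x) v := by
      apply co_unique hf.1
      simp only [Pi.smul_apply, smul_eq_mul, mul_smul]
      rw [← Finset.smul_sum, co_spec hv]
    rw [h1, MultilinearMap.map_update_smul, smul_eq_mul]
  · intro φ hφ ψ hψ x hx hx' hxM w hw
    have hw' : ∀ k, w k ∈ 𝓕 φ x := fun k => by have := hw k; rwa [hSl] at this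
    set g : Fin r → Fin n → ℂ := fr 𝓕 φ x with hg
    have hgF : Fr 𝓕 φ x g := fr_spec hF hφ hx hxM
    have hinj : Function.Injective (der id φ ψ x) := by
      intro a b hab
      have h1 := fun v => (hCh.2.2.1 (Diffeomorph.refl 𝓘(ℂ, Fin n → ℂ) X ω) φ hφ ψ hψ x hx hx' v).1
      have h2 := h1 a
      have h3 := h1 b
      have hab' : der (Diffeomorph.refl 𝓘(ℂ, Fin n → ℂ) X ω) φ ψ x a =
          der (Diffeomorph.refl 𝓘(ℂ, Fin n → ℂ) X ω) φ ψ x b := hab
      rw [← h2, ← h3, hab']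
    have hgF' : Fr 𝓕 ψ x (fun i => der id φ ψ x (g i)) := by
      refine ⟨?_, ?_⟩
      · exact hgF.1.map' (der id φ ψ x : (Fin n → ℂ) →ₗ[ℂ] (Fin n → ℂ))
          (LinearMap.ker_eq_bot.mpr hinj)
      · rw [nat_id hF hφ hψ hx hx' hxM, ← hgF.2, Submodule.map_span]
        congr 1
        ext v
        simp
    rw [T0_eq hF hs hψ hx' hxM hgF' (fun k => der_mem hF hφ hψ hx hx' hxM (hw' k)),
      T0_eq hF hs hφ hx hxM hgF hw', hs.nat φ hφ ψ hψ x hx hx' hxM g hgF]
    refine Finset.sum_congr rfl fun I _ => ?_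
    congr 1
    refine Finset.prod_congr rfl fun k _ => ?_
    have h1 : co (fun i => der id φ ψ x (g i)) (der id φ ψ x (w k)) = co g (w k) := by
      apply co_unique hgF'.1
      rw [← co_spec (by rw [hgF.2]; exact hw' k : w k ∈ Submodule.span ℂ (range g)), map_sum]
      refine Finset.sum_congr rfl fun i _ => ?_
      rw [map_smul, co_spec (by rw [hgF.2]; exact hw' k)]
    rw [h1]
  · intro φ hφ W w hD hd hw y₀ hy₀
    have hw' : ∀ y ∈ W, ∀ k, w y k ∈ 𝓕 φ (φ.symm y) := fun y hy k => by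
      have := hw y hy k
      rwa [hSl] at this
    have hys := φ.map_target (hD.2.1 hy₀)
    obtain ⟨W₁, e, hD₁, hx₁, hH, hFr⟩ := hF.frame φ hφ (φ.symm y₀) hys (hD.2.2 y₀ hy₀)
    rw [φ.right_inv (hD.2.1 hy₀)] at hx₁
    have hex : ∀ k, ∃ (W' : Set (Fin n → ℂ)) (c : (Fin n → ℂ) → Fin r → ℂ), IsOpen W' ∧ y₀ ∈ W' ∧
        W' ⊆ W ∩ W₁ ∧ (∀ i, DifferentiableOn ℂ (fun y => c y i) W') ∧
        ∀ y ∈ W', w y k = ∑ i, c y i • e y i := by
      intro k
      obtain ⟨W', c, h1, h2, h3, h4, -, h5⟩ := hCr n n r (W ∩ W₁) (W ∩ W₁) y₀ e (fun y => w y k)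
        (hD.1.inter hD₁.1) ⟨hy₀, hx₁⟩ (fun i j => (hH i j).mono inter_subset_right)
        ((hd k).mono inter_subset_left) (hFr _ hx₁).1 subset_closure le_rfl
        (fun y hy => by rw [(hFr y hy.2).2]; exact hw' y hy.1 k)
      exact ⟨W', c, h1, h2, h3, h4, h5⟩
    choose W' c hW'o hyW' hW'W hc hwc using hex
    have hOo : IsOpen ((W ∩ W₁) ∩ ⋂ k, W' k) :=
      (hD.1.inter hD₁.1).inter (isOpen_iInter_of_finite hW'o)
    have hyO : y₀ ∈ (W ∩ W₁) ∩ ⋂ k, W' k := ⟨⟨hy₀, hx₁⟩, mem_iInter.mpr hyW'⟩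
    have heq : ∀ y ∈ (W ∩ W₁) ∩ ⋂ k, W' k, T0 𝓕 s φ (φ.symm y) (w y) =
        ∑ I : Fin N → Fin r, (∏ k, c k y (I k)) * s φ (φ.symm y) (e y) I := by
      rintro y ⟨⟨hyW, hyW₁⟩, hy⟩
      rw [T0_eq hF hs hφ (φ.map_target (hD.2.1 hyW)) (hD.2.2 y hyW) (hFr y hyW₁) (hw' y hyW)]
      refine Finset.sum_congr rfl fun I _ => ?_
      congr 1
      refine Finset.prod_congr rfl fun k _ => ?_
      rw [co_unique (hFr y hyW₁).1 (hwc k y (mem_iInter.mp hy k)).symm]
    have hdiff : DifferentiableOn ℂ (fun y => ∑ I : Fin N → Fin r,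
        (∏ k, c k y (I k)) * s φ (φ.symm y) (e y) I) ((W ∩ W₁) ∩ ⋂ k, W' k) := by
      refine DifferentiableOn.fun_sum fun I _ => DifferentiableOn.mul ?_ ?_
      · exact dprod _ _ fun k _ => (hc k (I k)).mono
          (inter_subset_right.trans (iInter_subset _ k))
      · exact (hs.hol φ hφ W₁ e hD₁ hH hFr I).mono (inter_subset_left.trans inter_subset_right)
    exact ((hdiff.congr heq).differentiableAt (hOo.mem_nhds hyO)).differentiableWithinAt

end ini

theorem delta_sum {r N : ℕ} (I : Fin N → Fin r) (a : (Fin N → Fin r) → ℂ) (δ : Fin r → Fin r → ℂ)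
    (hδ : ∀ i j, δ i j = if i = j then 1 else 0) :
    ∑ J : Fin N → Fin r, (∏ k, δ (I k) (J k)) * a J = a I := by
  rw [Finset.sum_eq_single I]
  · simp [hδ]
  · intro J _ hJ
    obtain ⟨k, hk⟩ : ∃ k, J k ≠ I k := by
      by_contra h
      push Not at h
      exact hJ (funext h)
    have h4 : ∏ k, δ (I k) (J k) = 0 :=
      Finset.prod_eq_zero (Finset.mem_univ k) (by rw [hδ, if_neg (Ne.symm hk)])
    rw [h4, zero_mul]
  · intro h; exact absurd (Finset.mem_univ _) h

theorem brk2 (hCr : S_Cramer) (hCh : S_Chart n X) (hDer : S_Der) (hSE : S_SecExt n X) :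
    S_Brk2 n X := by
  intro M M' G 𝓕 𝓕' r r' hF hF' hM' hMc hRem hB hno N hN s hs φ hφ x hx hxM e he I
  have : Nonempty (Fin N) := ⟨⟨0, hN⟩⟩
  have hT := mt_T0 hCr hCh 𝓕 hF' hs
  have hem : ∀ i, e i ∈ 𝓕' φ x := fun i => by rw [← he.2]; exact Submodule.subset_span ⟨i, rfl⟩
  have h1 := vanish hCr hCh hDer hSE hF hF' hM' hMc hRem hB hno _ (Fin N) inferInstance
    inferInstance inferInstance Finset.univ rfl _ hT φ hφ x hx hxM (fun k => e (I k))
    (fun k => by rw [Sl_mem (Finset.mem_univ k)]; exact hem _)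
  have h0 := T0_eq hF' hs hφ hx hxM he (w := fun k => e ((I : Fin N → Fin r') k))
    (fun k => hem _)
  have h1' := h0.symm.trans h1
  have hco : ∀ i j, co e (e i) j = if i = j then 1 else 0 := by
    intro i j
    have h2 : co e (e i) = fun j => if i = j then 1 else 0 := by
      apply co_unique he.1
      simp
    rw [h2]
  exact (delta_sum (I : Fin N → Fin r') (fun J => s φ x e J) (fun i j => co e (e i) j)
    hco).symm.trans h1'

end Pool.Agent.Helper23.CX
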