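import Mathlib

/-! Generic rank of the moments: a Baire category argument and Cramer's rule. -/

set_option autoImplicit false

namespace Pool.Agent.Helper23.CX

open Metric Set Topology Polynomial

/-- minors of the matrix of moments -/
def DD {E ι : Type} (M : ι → ℕ → E → ℂ) (s : ℕ) (c : Fin s → ι × ℕ) (z : E) : ℂ :=
  (Matrix.of fun i j : Fin s => M (c i).1 ((c i).2 + j) z).det

theorem prod_diff {E ι : Type} [NormedAddCommGroup E] [NormedSpace ℂ E] (u : Finset ι)
    (f : ι → E → ℂ) (B : Set E) (h : ∀ i, DifferentiableOn ℂ (f i) B) :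
    DifferentiableOn ℂ (fun z => ∏ i ∈ u, f i z) B := by
  classical
  induction u using Finset.induction_on with
  | empty => simp only [Finset.prod_empty]; exact differentiableOn_const _
  | insert a u ha ih =>
    simp only [Finset.prod_insert ha]
    exact (h a).mul ih

theorem det_diff {E : Type} [NormedAddCommGroup E] [NormedSpace ℂ E] (s : ℕ)
    (A : Fin s → Fin s → E → ℂ) (B : Set E) (h : ∀ i j, DifferentiableOn ℂ (A i j) B) :
    DifferentiableOn ℂ (fun z => (Matrix.of fun i j : Fin s => A i j z).det) B := by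
  simp only [Matrix.det_apply]
  refine DifferentiableOn.fun_sum fun σ _ => ?_
  refine DifferentiableOn.const_smul ?_ _
  simp only [Matrix.of_apply]
  exact prod_diff _ _ _ fun i => h _ _

theorem gen {n : ℕ} {ι : Type} (M : ι → ℕ → (Fin n → ℂ) → ℂ) (B : Set (Fin n → ℂ))
    (hM : ∀ i l, DifferentiableOn ℂ (M i l) B)
    (hg : ∀ z ∈ B, ∃ g : ℂ[X], g ≠ 0 ∧
      ∀ i l, ∑ j ∈ Finset.range (g.natDegree + 1), g.coeff j * M i (l + j) z = 0)
    (O : Set (Fin n → ℂ)) (hO : IsOpen O) (hOn : O.Nonempty) (hOB : O ⊆ B) :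
    ∃ (O' : Set (Fin n → ℂ)) (ν : ℕ) (a : Fin (ν + 1) → (Fin n → ℂ) → ℂ), IsOpen O' ∧
      O'.Nonempty ∧ O' ⊆ O ∧ (∀ j, DifferentiableOn ℂ (a j) B) ∧
      (∀ z ∈ O', a (Fin.last ν) z ≠ 0) ∧
      (∀ z ∈ O', ∀ i l, ∑ j, a j z * M i (l + j) z = 0) ∧
      (∀ z ∈ O', ∀ b : Fin ν → ℂ, (∀ i l, ∑ j, b j * M i (l + j) z = 0) → b = 0) := by
  classical
  have hDd : ∀ s c, DifferentiableOn ℂ (DD M s c) B := fun s c =>
    det_diff s _ B fun i j => hM _ _
  have hDc : ∀ s c, ContinuousOn (DD M s c) O := fun s c => ((hDd s c).continuousOn).mono hOB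
  -- Baire
  let F : ℕ → Set (Fin n → ℂ) := fun s => {z | z ∈ O → ∀ s' ≥ s, ∀ c : Fin s' → ι × ℕ,
    DD M s' c z = 0}
  have hFc : ∀ s, IsClosed (F s) := by
    intro s
    rw [← isOpen_compl_iff]
    have : (F s)ᶜ = ⋃ s' : ℕ, ⋃ (_ : s' ≥ s), ⋃ c : Fin s' → ι × ℕ,
        O ∩ (DD M s' c) ⁻¹' {0}ᶜ := by
      ext z
      simp only [F, mem_compl_iff, mem_ofPred_eq, mem_iUnion, mem_inter_iff, mem_preimage,
        mem_singleton_iff]
      push Not
      constructor
      · rintro ⟨h1, s', h2, c, h3⟩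
        exact ⟨s', h2, c, h1, h3⟩
      · rintro ⟨s', h2, c, h1, h3⟩
        exact ⟨h1, s', h2, c, h3⟩
    rw [this]
    exact isOpen_iUnion fun s' => isOpen_iUnion fun _ => isOpen_iUnion fun c =>
      (hDc s' c).isOpen_inter_preimage hO isOpen_compl_singleton
  have hFu : ⋃ s, F s = univ := by
    rw [eq_univ_iff_forall]
    intro z
    rw [mem_iUnion]
    by_cases hz : z ∈ O
    · obtain ⟨g, hg0, hg⟩ := hg z (hOB hz)
      refine ⟨g.natDegree + 1, fun _ s' hs' c => ?_⟩
      rw [DD, ← Matrix.exists_mulVec_eq_zero_iff]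
      refine ⟨fun j => g.coeff j, ?_, ?_⟩
      · intro h
        have h1 := congrFun h ⟨g.natDegree, by omega⟩
        simp only [Pi.zero_apply] at h1
        exact hg0 (leadingCoeff_eq_zero.mp h1)
      · funext i
        simp only [Matrix.mulVec, dotProduct, Matrix.of_apply, Pi.zero_apply]
        rw [← hg (c i).1 (c i).2,
          Fin.sum_univ_eq_sum_range (fun j => M (c i).1 ((c i).2 + j) z * g.coeff j) s']
        symm
        apply Finset.sum_subset_zero_on_sdiff
        · intro x hx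
          rw [Finset.mem_range] at hx ⊢
          omega
        · intro x hx
          rw [Finset.mem_sdiff, Finset.mem_range, Finset.mem_range] at hx
          rw [coeff_eq_zero_of_natDegree_lt (by omega), mul_zero]
        · intro x _
          ring
    · exact ⟨0, fun h => absurd h hz⟩
  have hdense := dense_iUnion_interior_of_closed hFc hFu
  obtain ⟨z₀, hz₀, hz₀O⟩ := hdense.exists_mem_open hO hOn
  rw [mem_iUnion] at hz₀
  obtain ⟨s, hs⟩ := hz₀
  set O₁ : Set (Fin n → ℂ) := O ∩ interior (F s) with hO₁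
  have hO₁o : IsOpen O₁ := hO.inter isOpen_interior
  have hP : ∃ s, ∀ s' ≥ s, ∀ z ∈ O₁, ∀ c : Fin s' → ι × ℕ, DD M s' c z = 0 :=
    ⟨s, fun s' hs' z hz c => interior_subset hz.2 hz.1 s' hs' c⟩
  have hN := Nat.find_spec hP
  have hmin := fun m (hm : m < Nat.find hP) => Nat.find_min hP hm
  set N := Nat.find hP with hNdef
  have hNpos : N ≠ 0 := by
    intro h0
    have := hN 0 (by omega) z₀ ⟨hz₀O, hs⟩ (fun i => i.elim0)
    simp [DD] at this
  obtain ⟨ν, hν⟩ := Nat.exists_eq_succ_of_ne_zero hNpos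
  have hmv := hmin ν (by omega)
  push Not at hmv
  obtain ⟨s', hs', z₁, hz₁, c₀, hc₀⟩ := hmv
  have hs'ν : s' = ν := by
    by_contra hne
    exact hc₀ (hN s' (by omega) z₁ hz₁ c₀)
  subst hs'ν
  refine ⟨O₁ ∩ (DD M s' c₀) ⁻¹' {0}ᶜ, s', fun j z => (-1) ^ (j : ℕ) *
    (Matrix.of fun i l : Fin s' => M (c₀ i).1 ((c₀ i).2 + (j.succAbove l : ℕ)) z).det, ?_, ?_, ?_,
    ?_, ?_, ?_, ?_⟩
  · exact ((hDc s' c₀).mono inter_subset_left).isOpen_inter_preimage hO₁o isOpen_compl_singleton
  · exact ⟨z₁, hz₁, hc₀⟩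
  · exact fun z hz => hz.1.1
  · intro j
    exact DifferentiableOn.const_mul (det_diff s' _ B fun i l => hM _ _) _
  · intro z hz
    refine mul_ne_zero (pow_ne_zero _ (by norm_num)) ?_
    have := hz.2
    simp only [mem_preimage, mem_compl_iff, mem_singleton_iff, DD] at this
    simpa [Fin.succAbove_last] using this
  · intro z hz i l
    have h0 := hN (s' + 1) (by omega) z hz.1 (Fin.cons (i, l) c₀)
    rw [DD, Matrix.det_succ_row_zero] at h0
    rw [← h0]
    refine Finset.sum_congr rfl fun j _ => ?_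
    simp only [Matrix.of_apply, Fin.cons_zero]
    have : (Matrix.of fun i l : Fin s' => M (c₀ i).1 ((c₀ i).2 + (j.succAbove l : ℕ)) z) =
        (Matrix.of fun i_1 j : Fin (s' + 1) => M ((Fin.cons (i, l) c₀ : Fin (s' + 1) → ι × ℕ) i_1).1
          (((Fin.cons (i, l) c₀ : Fin (s' + 1) → ι × ℕ) i_1).2 + (j : ℕ)) z).submatrix Fin.succ
          j.succAbove := by
      ext i' l'
      simp
    rw [this]
    ring
  · intro z hz b hb
    have hdet := hz.2
    simp only [mem_preimage, mem_compl_iff, mem_singleton_iff, DD] at hdet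
    apply Matrix.eq_zero_of_mulVec_eq_zero hdet
    funext i
    simp only [Matrix.mulVec, dotProduct, Matrix.of_apply, Pi.zero_apply]
    rw [← hb (c₀ i).1 (c₀ i).2]
    exact Finset.sum_congr rfl fun j _ => mul_comm _ _

end Pool.Agent.Helper23.CX
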