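import Mathlib

/-! One complex variable: factor out the zeros in a disc; Cauchy integrals of rational type. -/

set_option autoImplicit false

namespace Pool.Agent.Helper23.CX

open Metric Set Topology Polynomial

theorem div_out (φ : ℂ → ℂ) (D : Set ℂ) (hD : IsOpen D) (hφ : DifferentiableOn ℂ φ D) (a : ℂ)
    (ha : a ∈ D) (hne : ¬ ∀ᶠ z in 𝓝 a, φ z = 0) :
    ∃ (n : ℕ) (ψ : ℂ → ℂ), DifferentiableOn ℂ ψ D ∧ ψ a ≠ 0 ∧ ∀ ζ ∈ D, φ ζ = (ζ - a) ^ n * ψ ζ := by
  classical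
  have han : AnalyticAt ℂ φ a := hφ.analyticAt (hD.mem_nhds ha)
  obtain ⟨n, g, hg, hg0, hgn⟩ := han.exists_eventuallyEq_pow_smul_nonzero_iff.mpr hne
  refine ⟨n, Function.update (fun ζ => φ ζ / (ζ - a) ^ n) a (g a), ?_, by simpa using hg0, ?_⟩
  · intro ζ hζ
    by_cases h : ζ = a
    · subst h
      have : Function.update (fun ζ' => φ ζ' / (ζ' - ζ) ^ n) ζ (g ζ) =ᶠ[𝓝 ζ] g := by
        filter_upwards [hgn] with w hw
        by_cases h : w = ζ
        · subst h; simp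
        · rw [Function.update_of_ne h, hw, smul_eq_mul, mul_div_cancel_left₀]
          exact pow_ne_zero _ (sub_ne_zero.mpr h)
      exact ((hg.differentiableAt.congr_of_eventuallyEq this)).differentiableWithinAt
    · have : Function.update (fun ζ' => φ ζ' / (ζ' - a) ^ n) a (g a) =ᶠ[𝓝 ζ]
          fun ζ' => φ ζ' / (ζ' - a) ^ n := by
        filter_upwards [isOpen_ne.mem_nhds h] with w hw
        rw [Function.update_of_ne hw]
      refine (DifferentiableAt.congr_of_eventuallyEq ?_ this).differentiableWithinAt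
      refine (hφ.differentiableAt (hD.mem_nhds hζ)).div (by fun_prop) ?_
      exact pow_ne_zero _ (sub_ne_zero.mpr h)
  · intro ζ hζ
    by_cases h : ζ = a
    · subst h
      rw [Function.update_self]
      have := hgn.self_of_nhds
      simpa using this
    · rw [Function.update_of_ne h, mul_div_cancel₀]
      exact pow_ne_zero _ (sub_ne_zero.mpr h)

theorem div_fin (φ : ℂ → ℂ) (D : Set ℂ) (hD : IsOpen D) (hφ : DifferentiableOn ℂ φ D)
    (S : Finset ℂ) (hS : ∀ a ∈ S, a ∈ D ∧ ¬ ∀ᶠ z in 𝓝 a, φ z = 0) :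
    ∃ (g : ℂ[X]) (u : ℂ → ℂ), g ≠ 0 ∧ DifferentiableOn ℂ u D ∧ (∀ a ∈ S, u a ≠ 0) ∧
      ∀ ζ ∈ D, φ ζ = g.eval ζ * u ζ := by
  classical
  induction S using Finset.induction_on with
  | empty => exact ⟨1, φ, one_ne_zero, hφ, by simp, by simp⟩
  | insert a S haS ih =>
    obtain ⟨g, u, hg, hu, huS, h⟩ := ih fun b hb => hS b (Finset.mem_insert_of_mem hb)
    obtain ⟨haD, hna⟩ := hS a (Finset.mem_insert_self _ _)
    have hua : ¬ ∀ᶠ z in 𝓝 a, u z = 0 := by
      intro h0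
      apply hna
      filter_upwards [h0, hD.mem_nhds haD] with z hz hzD
      rw [h z hzD, hz, mul_zero]
    obtain ⟨n, ψ, hψ, hψa, hψe⟩ := div_out u D hD hu a haD hua
    refine ⟨g * (X - C a) ^ n, ψ, mul_ne_zero hg (pow_ne_zero _ (X_sub_C_ne_zero a)), hψ, ?_, ?_⟩
    · intro b hb
      rcases Finset.mem_insert.mp hb with rfl | hb
      · exact hψa
      · intro h0
        apply huS b hb
        rw [hψe b (hS b (Finset.mem_insert_of_mem hb)).1, h0, mul_zero]
    · intro ζ hζ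
      rw [h ζ hζ, hψe ζ hζ]
      simp
      ring

theorem factor (φ : ℂ → ℂ) (D : Set ℂ) (r : ℝ) (hr : 0 < r) (hD : IsOpen D)
    (hsub : closedBall 0 r ⊆ D) (hφ : DifferentiableOn ℂ φ D) (hne : ∀ ζ : ℂ, ‖ζ‖ = r → φ ζ ≠ 0) :
    ∃ (g : ℂ[X]) (u : ℂ → ℂ), g ≠ 0 ∧ DifferentiableOn ℂ u D ∧
      (∀ ζ ∈ closedBall (0 : ℂ) r, u ζ ≠ 0) ∧ ∀ ζ ∈ D, φ ζ = g.eval ζ * u ζ := by
  classical
  have han : AnalyticOnNhd ℂ φ (closedBall 0 r) := fun z hz =>
    hφ.analyticAt (hD.mem_nhds (hsub hz))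
  have hnz : ∀ a ∈ closedBall (0 : ℂ) r, ¬ ∀ᶠ z in 𝓝 a, φ z = 0 := by
    intro a ha h
    have h1 := han.eqOn_zero_of_preconnected_of_eventuallyEq_zero
      (convex_closedBall (0 : ℂ) r).isPreconnected ha h
    have h2 : ((r : ℂ)) ∈ closedBall (0 : ℂ) r := by
      simp [abs_of_pos hr]
    exact hne r (by simp [abs_of_pos hr]) (h1 h2)
  have hfin : {ζ ∈ closedBall (0 : ℂ) r | φ ζ = 0}.Finite := by
    by_contra hinf
    obtain ⟨x, hx, hacc⟩ := Set.Infinite.exists_accPt_of_subset_isCompact hinf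
      (isCompact_closedBall (0 : ℂ) r) (sep_subset _ _)
    apply hnz x hx
    rw [← (han x hx).frequently_zero_iff_eventually_zero]
    rw [accPt_iff_frequently_nhdsNE] at hacc
    exact hacc.mono fun z hz => hz.2
  obtain ⟨g, u, hg, hu, huS, h⟩ := div_fin φ D hD hφ hfin.toFinset (by
    intro a ha
    rw [Set.Finite.mem_toFinset] at ha
    exact ⟨hsub ha.1, hnz a ha.1⟩)
  refine ⟨g, u, hg, hu, ?_, h⟩
  intro ζ hζ h0
  have : φ ζ = 0 := by rw [h ζ (hsub hζ), h0, mul_zero]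
  exact huS ζ (by rw [Set.Finite.mem_toFinset]; exact ⟨hζ, this⟩) h0

/-- Cauchy transforms of `q f` where `q f` has no moments -/
theorem cauchy_mul (r : ℝ) (hr : 0 < r) (f : ℂ → ℂ) (hf : ContinuousOn f (sphere 0 r)) (q : ℂ[X])
    (hq : ∀ l : ℕ, (∮ ζ in C(0, r), ζ ^ l * (q.eval ζ * f ζ)) = 0) (b : ℂ[X]) (t : ℂ)
    (ht : ‖t‖ < r) :
    (∮ ζ in C(0, r), (ζ - t)⁻¹ * (b.eval ζ * (q.eval ζ * f ζ))) =
      b.eval t * ∮ ζ in C(0, r), (ζ - t)⁻¹ * (q.eval ζ * f ζ) := by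
  have hne : ∀ ζ ∈ sphere (0 : ℂ) r, ζ - t ≠ 0 := by
    intro ζ hζ h
    rw [sub_eq_zero] at h
    rw [mem_sphere_zero_iff_norm, h] at hζ
    exact absurd hζ ht.ne
  have hqc : ContinuousOn (fun ζ => q.eval ζ * f ζ) (sphere 0 r) :=
    (q.continuous.continuousOn).mul hf
  have hci : ∀ p : ℂ[X], CircleIntegrable (fun ζ => p.eval ζ * (q.eval ζ * f ζ)) 0 r := fun p =>
    ContinuousOn.circleIntegrable hr.le ((p.continuous.continuousOn).mul hqc)
  have hall : ∀ p : ℂ[X], (∮ ζ in C(0, r), p.eval ζ * (q.eval ζ * f ζ)) = 0 := by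
    intro p
    induction p using Polynomial.induction_on' with
    | add p p' hp hp' =>
      simp only [eval_add, add_mul]
      rw [circleIntegral.integral_add (hci p) (hci p'), hp, hp', add_zero]
    | monomial l c =>
      have : (fun ζ => eval ζ (monomial l c) * (q.eval ζ * f ζ)) =
          fun ζ => c * (ζ ^ l * (q.eval ζ * f ζ)) := by
        funext ζ
        rw [eval_monomial]; ring
      rw [this, circleIntegral.integral_const_mul, hq l, mul_zero]
  set b₁ : ℂ[X] := b /ₘ (X - C t) with hb₁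
  have hb : b = (X - C t) * b₁ + C (b.eval t) := by
    have h := Polynomial.modByMonic_add_div b (X - C t)
    rw [Polynomial.modByMonic_X_sub_C_eq_C_eval] at h
    rw [hb₁, add_comm]
    exact h.symm
  have hev : ∀ ζ, b.eval ζ = (ζ - t) * b₁.eval ζ + b.eval t := by
    intro ζ
    conv_lhs => rw [hb]
    simp
  have h1 : (∮ ζ in C(0, r), (ζ - t)⁻¹ * (b.eval ζ * (q.eval ζ * f ζ))) =
      ∮ ζ in C(0, r), (b₁.eval ζ * (q.eval ζ * f ζ) +
        b.eval t * ((ζ - t)⁻¹ * (q.eval ζ * f ζ))) := by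
    apply circleIntegral.integral_congr hr.le
    intro ζ hζ
    have := hne ζ hζ
    simp only
    rw [hev ζ]
    field_simp
  have hc2 : CircleIntegrable (fun ζ => (ζ - t)⁻¹ * (q.eval ζ * f ζ)) 0 r := by
    apply ContinuousOn.circleIntegrable hr.le
    refine ContinuousOn.mul (ContinuousOn.inv₀ (by fun_prop) hne) hqc
  have hc3 : CircleIntegrable (fun ζ => b.eval t * ((ζ - t)⁻¹ * (q.eval ζ * f ζ))) 0 r := by
    apply ContinuousOn.circleIntegrable hr.le
    exact ContinuousOn.mul continuousOn_const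
      (ContinuousOn.mul (ContinuousOn.inv₀ (by fun_prop) hne) hqc)
  rw [h1, circleIntegral.integral_add (hci b₁) hc3, hall b₁, zero_add,
    circleIntegral.integral_const_mul]

/-- the Cauchy transform is continuous inside the circle -/
theorem cauchy_cont (r : ℝ) (hr : 0 < r) (f : ℂ → ℂ) (hf : ContinuousOn f (sphere 0 r)) :
    ContinuousOn (fun t : ℂ => ∮ ζ in C(0, r), (ζ - t)⁻¹ * f ζ) (ball 0 r) := by
  obtain ⟨R, rfl⟩ : ∃ R : NNReal, (R : ℝ) = r := ⟨⟨r, hr.le⟩, rfl⟩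
  have h : CircleIntegrable f 0 (R : ℝ) :=
    ContinuousOn.circleIntegrable hr.le hf
  have h2 := hasFPowerSeriesOn_cauchy_integral h (R := R) (by exact_mod_cast hr)
  have h3 := h2.continuousOn
  have h4 : ContinuousOn (fun t : ℂ => (2 * Real.pi * Complex.I) *
      ((2 * Real.pi * Complex.I : ℂ)⁻¹ • ∮ ζ in C(0, R), (ζ - t)⁻¹ • f ζ)) (ball 0 R) := by
    refine ContinuousOn.mul continuousOn_const ?_
    rw [← Metric.eball_coe]
    exact h3
  refine h4.congr fun t _ => ?_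
  simp only [smul_eq_mul]
  rw [mul_inv_cancel_left₀ Complex.two_pi_I_ne_zero]

end Pool.Agent.Helper23.CX
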