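import Pool.Agent.Helper91.CX.Stm
import Pool.Agent.Helper23.CX.One
import Pool.Agent.Helper23.CX.Gen
import Pool.Agent.Helper23.CX.Alg

/-! Distributions extend as subbundles outside of sets of codimension two (`S_Ext1`). -/

set_option autoImplicit false

namespace Pool.Agent.Helper23.CX

open Metric Set Topology Polynomial Pool.Agent.Helper91.CX

theorem mom_sum {κ : Type} (r : ℝ) (hr : 0 < r) (f : ℂ → ℂ) (hf : ContinuousOn f (sphere 0 r))
    (s : Finset κ) (c : κ → ℂ) (e : κ → ℕ) (l : ℕ) :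
    (∮ ζ in C(0, r), ζ ^ l * ((∑ j ∈ s, c j * ζ ^ e j) * f ζ)) =
      ∑ j ∈ s, c j * ∮ ζ in C(0, r), ζ ^ (l + e j) * f ζ := by
  have h1 : (fun ζ : ℂ => ζ ^ l * ((∑ j ∈ s, c j * ζ ^ e j) * f ζ)) =
      fun ζ => ∑ j ∈ s, c j * (ζ ^ (l + e j) * f ζ) := by
    funext ζ
    rw [Finset.sum_mul, Finset.mul_sum]
    exact Finset.sum_congr rfl fun j _ => by ring
  rw [h1, circleIntegral.integral_fun_sum]
  · exact Finset.sum_congr rfl fun j _ => circleIntegral.integral_const_mul _ _ _ _
  · intro j _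
    apply ContinuousOn.circleIntegrable hr.le
    exact continuousOn_const.mul (ContinuousOn.mul (by fun_prop) hf)

/-- the algebraic relation between the Cauchy transform and the function -/
theorem rel (r : ℝ) (hr : 0 < r) (f : ℂ → ℂ) (hf : ContinuousOn f (sphere 0 r)) (q g : ℂ[X])
    (hq : ∀ l : ℕ, (∮ ζ in C(0, r), ζ ^ l * (q.eval ζ * f ζ)) = 0) (h : ℂ → ℂ)
    (hh : DiffContOnCl ℂ h (ball 0 r)) (hgf : ∀ ζ ∈ sphere (0 : ℂ) r, g.eval ζ * f ζ = h ζ) (t : ℂ)
    (ht : ‖t‖ < r) :
    g.eval t * (∮ ζ in C(0, r), (ζ - t)⁻¹ * (q.eval ζ * f ζ)) =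
      2 * Real.pi * Complex.I * (q.eval t * h t) := by
  rw [← cauchy_mul r hr f hf q hq g t ht]
  have hqh : DiffContOnCl ℂ (fun ζ => q.eval ζ * h ζ) (ball 0 r) := by
    have : DiffContOnCl ℂ (fun ζ => q.eval ζ) (ball 0 r) := q.differentiable.diffContOnCl
    exact this.smul hh
  have h1 := hqh.circleIntegral_sub_inv_smul (w := t) (by simpa using ht)
  simp only [smul_eq_mul] at h1
  rw [← h1]
  apply circleIntegral.integral_congr hr.le
  intro ζ hζ
  simp only
  rw [← hgf ζ hζ]
  ring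

theorem div_diff {E : Type} [NormedAddCommGroup E] [NormedSpace ℂ E] {a b : E → ℂ} {B : Set E}
    (ha : DifferentiableOn ℂ a B) (hb : DifferentiableOn ℂ b B) (hne : ∀ z ∈ B, b z ≠ 0) :
    DifferentiableOn ℂ (fun z => a z / b z) B := by
  simp only [div_eq_mul_inv]
  exact ha.mul (hb.inv hne)

theorem fin_eval {ν : ℕ} (a : Fin (ν + 1) → ℂ) (ζ : ℂ) :
    (∑ j : Fin (ν + 1), C (a j) * (X : ℂ[X]) ^ (j : ℕ)).eval ζ = ∑ j, a j * ζ ^ (j : ℕ) := by
  rw [eval_finsetSum]
  simp

theorem ext1 (hPar : S_Par) : S_Ext1 := by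
  intro n m k V U J x₀ v r δ hU hr hδ hV hsub hdet O hO hOn hOB
  classical
  set B : Set (Fin n → ℂ) := ball x₀ δ with hBdef
  have hBo : IsOpen B := isOpen_ball
  let P : (Fin k → Fin m) → (Fin n → ℂ) → ℂ :=
    fun I w => (Matrix.of fun i j : Fin k => V w i (I j)).det
  have hPd : ∀ I, DifferentiableOn ℂ (P I) U := fun I =>
    det_diff k (fun i j w => V w i (I j)) U fun i j => hV _ _
  have hPJ : ∀ z ∈ B, ∀ ζ ∈ sphere (0 : ℂ) r, P J (z + ζ • v) ≠ 0 := by
    intro z hz ζ hζ
    rw [mem_sphere_zero_iff_norm] at hζ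
    exact hdet z hz ζ hζ
  have hmem : ∀ z ∈ B, ∀ ζ ∈ closedBall (0 : ℂ) r, z + ζ • v ∈ U := by
    intro z hz ζ hζ
    rw [mem_closedBall_zero_iff] at hζ
    exact hsub z hz ζ hζ
  have hmem' : ∀ z ∈ B, ∀ ζ ∈ sphere (0 : ℂ) r, z + ζ • v ∈ U := fun z hz ζ hζ =>
    hmem z hz ζ (sphere_subset_closedBall hζ)
  let f : (Fin k → Fin m) → (Fin n → ℂ) → ℂ → ℂ := fun I z ζ => P I (z + ζ • v) / P J (z + ζ • v)
  have hfc : ∀ I, ContinuousOn (fun p : (Fin n → ℂ) × ℂ => f I p.1 p.2) (B ×ˢ sphere 0 r) := by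
    intro I
    have h1 : ∀ I', ContinuousOn (fun p : (Fin n → ℂ) × ℂ => P I' (p.1 + p.2 • v))
        (B ×ˢ sphere 0 r) := by
      intro I'
      refine ((hPd I').continuousOn).comp (by fun_prop) ?_
      intro p hp
      exact hmem' p.1 hp.1 p.2 hp.2
    exact (h1 I).div (h1 J) fun p hp => hPJ p.1 hp.1 p.2 hp.2
  have hfd : ∀ I, ∀ ζ ∈ sphere (0 : ℂ) r, DifferentiableOn ℂ (fun z => f I z ζ) B := by
    intro I ζ hζ
    have h1 : ∀ I', DifferentiableOn ℂ (fun z => P I' (z + ζ • v)) B := by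
      intro I'
      refine (hPd I').comp (by fun_prop) ?_
      intro z hz
      exact hmem' z hz ζ hζ
    exact div_diff (h1 I) (h1 J) fun z hz => hPJ z hz ζ hζ
  have hfz : ∀ I, ∀ z ∈ B, ContinuousOn (f I z) (sphere 0 r) := by
    intro I z hz
    have := (hfc I).comp (f := fun ζ : ℂ => (z, ζ)) (by fun_prop)
      (s := sphere (0 : ℂ) r) (fun ζ hζ => ⟨hz, hζ⟩)
    exact this
  -- the moments
  let M : (Fin k → Fin m) → ℕ → (Fin n → ℂ) → ℂ := fun I l z => ∮ ζ in C(0, r), ζ ^ l * f I z ζ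
  have hM : ∀ I l, DifferentiableOn ℂ (M I l) B := by
    intro I l
    refine hPar n (fun z ζ => ζ ^ l * f I z ζ) B r hr hBo ?_ ?_
    · exact ContinuousOn.mul (by fun_prop) (hfc I)
    · intro ζ hζ
      exact (hfd I ζ hζ).const_mul _
  -- one variable
  have hone : ∀ z ∈ B, ∃ (g : ℂ[X]) (u : ℂ → ℂ) (h : (Fin k → Fin m) → ℂ → ℂ), g ≠ 0 ∧
      (∀ I, DiffContOnCl ℂ (h I) (ball 0 r)) ∧
      (∀ ζ ∈ closedBall (0 : ℂ) r, ∀ I, P I (z + ζ • v) = u ζ * h I ζ) ∧
      (∀ ζ ∈ closedBall (0 : ℂ) r, P J (z + ζ • v) = g.eval ζ * u ζ) ∧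
      (∀ I, ∀ ζ ∈ sphere (0 : ℂ) r, g.eval ζ * f I z ζ = h I ζ) := by
    intro z hz
    let D : Set ℂ := (fun ζ : ℂ => z + ζ • v) ⁻¹' U
    have hDo : IsOpen D := hU.preimage (by fun_prop)
    have hDs : closedBall 0 r ⊆ D := fun ζ hζ => hmem z hz ζ hζ
    have hPz : ∀ I, DifferentiableOn ℂ (fun ζ : ℂ => P I (z + ζ • v)) D := fun I =>
      (hPd I).comp (by fun_prop) fun ζ hζ => hζ
    obtain ⟨g, u, hg, hu, hune, hgu⟩ := factor (fun ζ => P J (z + ζ • v)) D r hr hDo hDs (hPz J)
      (fun ζ hζ => hPJ z hz ζ (by rwa [mem_sphere_zero_iff_norm]))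
    refine ⟨g, u, fun I ζ => P I (z + ζ • v) / u ζ, hg, ?_, ?_, ?_, ?_⟩
    · intro I
      apply DifferentiableOn.diffContOnCl
      rw [closure_ball _ hr.ne']
      exact ((hPz I).mono hDs).div (hu.mono hDs) hune
    · intro ζ hζ I
      simp only
      rw [mul_div_cancel₀ _ (hune ζ hζ)]
    · intro ζ hζ
      exact hgu ζ (hDs hζ)
    · intro I ζ hζ
      have h1 := hgu ζ (hDs (sphere_subset_closedBall hζ))
      have h2 := hune ζ (sphere_subset_closedBall hζ)
      have h3 := hPJ z hz ζ hζ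
      have h4 : g.eval ζ ≠ 0 := by
        intro h0
        rw [h1, h0, zero_mul] at h3
        exact h3 rfl
      change g.eval ζ * (P I (z + ζ • v) / P J (z + ζ • v)) = P I (z + ζ • v) / u ζ
      rw [h1]
      field_simp
  obtain ⟨O', ν, a, hO'o, hO'n, hO'O, ha, halast, hker, hmin⟩ := gen M B hM (by
    intro z hz
    obtain ⟨g, u, h, hg, hh, -, -, hgf⟩ := hone z hz
    refine ⟨g, hg, ?_⟩
    intro I l
    have h1 := mom_sum r hr (f I z) (hfz I z hz) (Finset.range (g.natDegree + 1)) g.coeff id l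
    simp only [id] at h1
    have h2 : (∑ j ∈ Finset.range (g.natDegree + 1), g.coeff j * M I (l + j) z) =
        ∮ ζ in C(0, r), ζ ^ l * h I ζ := by
      rw [← h1]
      apply circleIntegral.integral_congr hr.le
      intro ζ hζ
      simp only
      rw [← hgf I ζ hζ, eval_eq_sum_range]
    rw [h2]
    have h3 : DiffContOnCl ℂ (fun ζ : ℂ => ζ ^ l * h I ζ) (ball 0 r) := by
      have : DiffContOnCl ℂ (fun ζ : ℂ => ζ ^ l) (ball 0 r) :=
        (differentiable_id.pow l).diffContOnCl
      exact this.smul (hh I)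
    exact h3.circleIntegral_eq_zero hr.le) O hO hOn hOB
  have hO'B : O' ⊆ B := hO'O.trans hOB
  let q : (Fin n → ℂ) → ℂ[X] := fun z => ∑ j : Fin (ν + 1), C (a j z) * X ^ (j : ℕ)
  have hqe : ∀ z ζ, (q z).eval ζ = ∑ j, a j z * ζ ^ (j : ℕ) := fun z ζ => fin_eval _ ζ
  have hqcoef : ∀ z (j : Fin (ν + 1)), (q z).coeff j = a j z := by
    intro z j
    simp only [q, finsetSum_coeff, coeff_C_mul, coeff_X_pow]
    rw [Finset.sum_eq_single j]
    · simp
    · intro b _ hb
      rw [if_neg, mul_zero]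
      intro h
      exact hb (Fin.ext h.symm)
    · simp
  have hqdeg : ∀ z, (q z).natDegree ≤ ν := by
    intro z
    apply natDegree_sum_le_of_forall_le
    intro j _
    exact (natDegree_C_mul_X_pow_le _ _).trans (by omega)
  have hqne : ∀ z ∈ O', q z ≠ 0 := by
    intro z hz h
    have := hqcoef z (Fin.last ν)
    rw [h, coeff_zero] at this
    exact halast z hz this.symm
  have hqmom : ∀ z ∈ O', ∀ I, ∀ l : ℕ, (∮ ζ in C(0, r), ζ ^ l * ((q z).eval ζ * f I z ζ)) = 0 := by
    intro z hz I l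
    have h1 := mom_sum r hr (f I z) (hfz I z (hO'B hz)) Finset.univ (fun j => a j z)
      (fun j : Fin (ν + 1) => (j : ℕ)) l
    simp only [hqe]
    rw [h1]
    exact hker z hz I l
  let Q : (Fin k → Fin m) → ℂ → (Fin n → ℂ) → ℂ :=
    fun I t z => ∮ ζ in C(0, r), (ζ - t)⁻¹ * ((q z).eval ζ * f I z ζ)
  have hrel : ∀ z ∈ O', ∀ I, ∀ t : ℂ, ‖t‖ < r →
      P J (z + t • v) * Q I t z = 2 * Real.pi * Complex.I * ((q z).eval t * P I (z + t • v)) := by
    intro z hz I t ht
    obtain ⟨g, u, h, hg, hh, hPh, hPg, hgf⟩ := hone z (hO'B hz)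
    have h1 := rel r hr (f I z) (hfz I z (hO'B hz)) (q z) g (hqmom z hz I) (h I) (hh I) (hgf I) t ht
    have htm : t ∈ closedBall (0 : ℂ) r := by
      rw [mem_closedBall_zero_iff]; exact ht.le
    rw [hPg t htm, hPh t htm I]
    simp only [Q]
    calc _ = u t * (g.eval t * ∮ ζ in C(0, r), (ζ - t)⁻¹ * ((q z).eval ζ * f I z ζ)) := by ring
      _ = _ := by rw [h1]; ring
  -- the transforms are holomorphic in the parameter
  have hQd : ∀ I, ∀ t : ℂ, ‖t‖ < r → DifferentiableOn ℂ (Q I t) B := by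
    intro I t ht
    refine hPar n (fun z ζ => (ζ - t)⁻¹ * ((q z).eval ζ * f I z ζ)) B r hr hBo ?_ ?_
    · refine ContinuousOn.mul (ContinuousOn.inv₀ (by fun_prop) ?_) (ContinuousOn.mul ?_ (hfc I))
      · rintro ⟨z, ζ⟩ ⟨-, hζ⟩ h0
        rw [mem_sphere_zero_iff_norm] at hζ
        rw [sub_eq_zero] at h0
        simp only at h0 hζ
        rw [h0] at hζ
        exact absurd hζ ht.ne
      · simp only [hqe]
        refine continuousOn_finsetSum _ fun j _ => ContinuousOn.mul ?_ (by fun_prop)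
        exact ((ha j).continuousOn).comp (by fun_prop) fun p hp => hp.1
    · intro ζ hζ
      refine DifferentiableOn.const_mul (DifferentiableOn.mul ?_ (hfd I ζ hζ)) _
      simp only [hqe]
      exact DifferentiableOn.fun_sum fun j _ => (ha j).mul_const _
  have hpi : (2 * Real.pi * Complex.I : ℂ) ≠ 0 := Complex.two_pi_I_ne_zero
  -- some transform is nonzero
  have hsome : ∀ z ∈ O', ∀ t : ℂ, ‖t‖ < r → ∃ I, Q I t z ≠ 0 := by
    intro z hz t ht
    by_contra hall
    push Not at hall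
    have hzB := hO'B hz
    have hne : ∀ ζ ∈ sphere (0 : ℂ) r, ζ - t ≠ 0 := by
      intro ζ hζ h
      rw [sub_eq_zero] at h
      rw [mem_sphere_zero_iff_norm, h] at hζ
      exact absurd hζ ht.ne
    have hqt : (q z).eval t = 0 := by
      have h1 := hall J
      have h2 : DiffContOnCl ℂ (fun ζ => (q z).eval ζ) (ball 0 r) :=
        (q z).differentiable.diffContOnCl
      have h3 := h2.circleIntegral_sub_inv_smul (w := t) (by simpa using ht)
      simp only [smul_eq_mul] at h3
      have h4 : Q J t z = ∮ ζ in C(0, r), (ζ - t)⁻¹ * (q z).eval ζ := by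
        apply circleIntegral.integral_congr hr.le
        intro ζ hζ
        have h5 : f J z ζ = 1 := div_self (hPJ z hzB ζ hζ)
        simp only
        rw [h5, mul_one]
      rw [← h4, h1] at h3
      exact (mul_eq_zero.mp h3.symm).resolve_left hpi
    set q' : ℂ[X] := q z /ₘ (X - C t) with hq'
    have hqq : q z = (X - C t) * q' := by
      have h := Polynomial.modByMonic_add_div (q z) (X - C t)
      rw [Polynomial.modByMonic_X_sub_C_eq_C_eval, hqt, C_0, zero_add] at h
      exact h.symm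
    have hq'ne : q' ≠ 0 := by
      intro h0
      rw [h0, mul_zero] at hqq
      exact hqne z hz hqq
    have hq'deg : q'.natDegree < ν := by
      have h1 : (q z).natDegree = 1 + q'.natDegree := by
        rw [hqq, natDegree_mul (X_sub_C_ne_zero t) hq'ne, natDegree_X_sub_C]
      have := hqdeg z
      omega
    have hmom' : ∀ I, ∀ l : ℕ, (∮ ζ in C(0, r), ζ ^ l * (q'.eval ζ * f I z ζ)) = 0 := by
      intro I l
      have h1 := cauchy_mul r hr (f I z) (hfz I z hzB) (q z) (hqmom z hz I) (X ^ l) t ht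
      have h2 : (∮ ζ in C(0, r), (ζ - t)⁻¹ * ((q z).eval ζ * f I z ζ)) = 0 := hall I
      rw [h2, mul_zero] at h1
      refine Eq.trans ?_ h1
      apply circleIntegral.integral_congr hr.le
      intro ζ hζ
      have h3 := hne ζ hζ
      simp only
      rw [hqq]
      simp only [eval_mul, eval_sub, eval_X, eval_C, eval_pow]
      field_simp
    have hb := hmin z hz (fun j => q'.coeff j) (by
      intro I l
      rw [← hmom' I l]
      have h1 := mom_sum r hr (f I z) (hfz I z hzB) Finset.univ (fun j : Fin ν => q'.coeff j)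
        (fun j : Fin ν => (j : ℕ)) l
      change (∑ j : Fin ν, q'.coeff j * ∮ ζ in C(0, r), ζ ^ (l + (j : ℕ)) * f I z ζ) = _
      rw [← h1]
      apply circleIntegral.integral_congr hr.le
      intro ζ hζ
      simp only
      congr 2
      rw [Fin.sum_univ_eq_sum_range (fun j => q'.coeff j * ζ ^ j) ν,
        eval_eq_sum_range' hq'deg])
    apply hq'ne
    ext j
    by_cases hj : j < ν
    · exact congrFun hb ⟨j, hj⟩
    · rw [coeff_eq_zero_of_natDegree_lt (by omega), coeff_zero]
  refine ⟨O', hO'o, hO'n, hO'O, ?_⟩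
  intro z hz t ht
  obtain ⟨Is, hIs⟩ := hsome z hz t ht
  let ψ : (Fin n → ℂ) → (Fin n → ℂ) := fun w => w - t • v
  have hψ : ∀ w, w = ψ w + t • v := fun w => by simp [ψ]
  have hψc : Continuous ψ := by fun_prop
  let W : Set (Fin n → ℂ) := ψ ⁻¹' (O' ∩ (Q Is t) ⁻¹' {0}ᶜ)
  have hWo : IsOpen W := by
    refine IsOpen.preimage hψc ?_
    exact ((hQd Is t ht).continuousOn.mono hO'B).isOpen_inter_preimage hO'o isOpen_compl_singleton
  let G : (Fin n → ℂ) → Fin k → Fin m → ℂ := fun w i j =>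
    Q (Function.update Is i j) t (ψ w) / Q Is t (ψ w)
  have hWmem : ∀ w ∈ W, ψ w ∈ O' ∧ Q Is t (ψ w) ≠ 0 := fun w hw => ⟨hw.1, hw.2⟩
  have hGi : ∀ w ∈ W, LinearIndependent ℂ (G w) := by
    intro w hw
    have hone' : ∀ i i₀ : Fin k, G w i (Is i₀) = if i = i₀ then 1 else 0 := by
      intro i i₀
      split_ifs with h
      · subst h
        simp only [G, Function.update_eq_self]
        exact div_self (hWmem w hw).2
      · have hf0 : ∀ ζ, f (Function.update Is i (Is i₀)) (ψ w) ζ = 0 := by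
          intro ζ
          have : P (Function.update Is i (Is i₀)) (ψ w + ζ • v) = 0 := by
            apply Matrix.det_zero_of_column_eq h
            intro l
            simp only [Matrix.of_apply, Function.update_self]
            rw [Function.update_of_ne (Ne.symm h)]
          change P (Function.update Is i (Is i₀)) (ψ w + ζ • v) / P J (ψ w + ζ • v) = 0
          rw [this, zero_div]
        have hQ0 : Q (Function.update Is i (Is i₀)) t (ψ w) = 0 := by
          have : (fun ζ : ℂ => (ζ - t)⁻¹ * ((q (ψ w)).eval ζ *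
              f (Function.update Is i (Is i₀)) (ψ w) ζ)) = fun ζ => (0 : ℂ) * (1 : ℂ) := by
            funext ζ
            rw [hf0]; simp
          change (∮ ζ in C(0, r), (ζ - t)⁻¹ * ((q (ψ w)).eval ζ *
              f (Function.update Is i (Is i₀)) (ψ w) ζ)) = 0
          rw [this, circleIntegral.integral_const_mul, zero_mul]
        change Q (Function.update Is i (Is i₀)) t (ψ w) / Q Is t (ψ w) = 0
        rw [hQ0, zero_div]
    rw [Fintype.linearIndependent_iff]
    intro c hc i₀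
    have h1 := congrFun hc (Is i₀)
    simp only [Finset.sum_apply, Pi.smul_apply, smul_eq_mul, Pi.zero_apply, hone'] at h1
    simpa using h1
  refine ⟨W, hWo, ⟨?_, ?_⟩, G, ?_, hGi, ?_⟩
  · change ψ (z + t • v) ∈ O'
    simpa [ψ] using hz
  · change Q Is t (ψ (z + t • v)) ≠ 0
    simpa [ψ] using hIs
  · intro i j
    have h1 : ∀ I, DifferentiableOn ℂ (fun w => Q I t (ψ w)) W := by
      intro I
      refine (hQd I t ht).comp (by fun_prop) ?_
      intro w hw
      exact hO'B (hWmem w hw).1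
    exact div_diff (h1 _) (h1 _) fun w hw => (hWmem w hw).2
  · intro w hw hVi
    obtain ⟨hzO, hQne⟩ := hWmem w hw
    set z' := ψ w with hz'
    have hw' : w = z' + t • v := hψ w
    -- proportionality of the minors
    have hprop : ∀ I, P I w * Q Is t z' = P Is w * Q I t z' := by
      intro I
      have hTc : ContinuousOn (fun s : ℂ => P I (z' + s • v) * Q Is s z' -
          P Is (z' + s • v) * Q I s z') (ball 0 r) := by
        have h1 : ∀ I, ContinuousOn (fun s : ℂ => P I (z' + s • v)) (ball 0 r) := by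
          intro I
          refine ((hPd I).continuousOn).comp (by fun_prop) ?_
          intro s hs
          exact hmem z' (hO'B hzO) s (ball_subset_closedBall hs)
        have h2 : ∀ I, ContinuousOn (fun s : ℂ => Q I s z') (ball 0 r) := by
          intro I
          exact cauchy_cont r hr (fun ζ => (q z').eval ζ * f I z' ζ)
            (((q z').continuous.continuousOn).mul (hfz I z' (hO'B hzO)))
        exact ((h1 I).mul (h2 Is)).sub ((h1 Is).mul (h2 I))
      have hT0 : ∀ s ∈ ball (0 : ℂ) r, (q z').eval s ≠ 0 → P I (z' + s • v) * Q Is s z' -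
          P Is (z' + s • v) * Q I s z' = 0 := by
        intro s hs hqs
        rw [mem_ball_zero_iff] at hs
        have h1 := hrel z' hzO I s hs
        have h2 := hrel z' hzO Is s hs
        have h3 : (2 * Real.pi * Complex.I * (q z').eval s) * (P I (z' + s • v) * Q Is s z' -
          P Is (z' + s • v) * Q I s z') = 0 := by
          calc _ = (2 * Real.pi * Complex.I * ((q z').eval s * P I (z' + s • v))) * Q Is s z' -
              (2 * Real.pi * Complex.I * ((q z').eval s * P Is (z' + s • v))) * Q I s z' := by ring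
            _ = 0 := by rw [← h1, ← h2]; ring
        exact (mul_eq_zero.mp h3).resolve_left (mul_ne_zero hpi hqs)
      have htb : t ∈ ball (0 : ℂ) r := by simpa using ht
      have hTt : ContinuousAt (fun s : ℂ => P I (z' + s • v) * Q Is s z' -
          P Is (z' + s • v) * Q I s z') t := hTc.continuousAt (isOpen_ball.mem_nhds htb)
      have hev : ∀ᶠ s in 𝓝[≠] t, P I (z' + s • v) * Q Is s z' -
          P Is (z' + s • v) * Q I s z' = 0 := by
        have hfin : {s : ℂ | (q z').IsRoot s}.Finite := finite_setOfPred_isRoot (hqne z' hzO)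
        have hnh : ({s : ℂ | (q z').IsRoot s} \ {t})ᶜ ∈ 𝓝 t := by
          apply (hfin.subset sdiff_subset).isClosed.isOpen_compl.mem_nhds
          simp
        filter_upwards [mem_nhdsWithin_of_mem_nhds hnh,
          mem_nhdsWithin_of_mem_nhds (isOpen_ball.mem_nhds htb), self_mem_nhdsWithin] with s h1 h2 h3
        apply hT0 s h2
        intro h4
        exact h1 ⟨h4, h3⟩
      have hlim := tendsto_nhds_unique (hTt.tendsto.mono_left nhdsWithin_le_nhds)
        (tendsto_const_nhds.congr' (Filter.EventuallyEq.symm hev))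
      rw [hw']
      exact sub_eq_zero.mp hlim
    obtain ⟨I₁, hI₁⟩ := exists_minor (V w) hVi
    have hPIs : P Is w ≠ 0 := by
      intro h0
      have h1 := hprop I₁
      rw [h0, zero_mul] at h1
      exact (mul_ne_zero hI₁ hQne) h1
    apply cramer_span (V w) hVi Is hPIs (G w) ?_ (hGi w hw)
    intro i j
    have h1 := hprop (Function.update Is i j)
    change Q (Function.update Is i j) t z' / Q Is t z' * P Is w = P (Function.update Is i j) w
    field_simp
    rw [mul_comm, ← h1, mul_comm]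

end Pool.Agent.Helper23.CX
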