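import Pool.Agent.Helper23.CX.Mix

/-! Extensions of vectors, brackets of vectors modulo the distribution. -/

set_option autoImplicit false
set_option linter.unusedSectionVars false

namespace Pool.Agent.Helper23.CX

open Metric Set Topology Pool.Agent.Helper91.CX
open scoped Manifold ContDiff

variable {n : ℕ} {X : Type} [TopologicalSpace X] [ChartedSpace (Fin n → ℂ) X]

theorem fd_diff (hDer : S_Der) {W : Set (Fin n → ℂ)} (hW : IsOpen W)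
    {u v : (Fin n → ℂ) → Fin n → ℂ} (hu : DifferentiableOn ℂ u W) (hv : DifferentiableOn ℂ v W) :
    DifferentiableOn ℂ (fun y => fderiv ℂ v y (u y)) W := by
  rw [differentiableOn_pi] at hu hv ⊢
  intro j
  have h1 : ∀ y ∈ W, (fderiv ℂ v y (u y)) j =
      ∑ l, u y l * fderiv ℂ (fun z => v z j) y (Pi.single l 1) := by
    intro y hy
    have hvy : DifferentiableAt ℂ v y := by
      rw [differentiableAt_pi]
      exact fun i => (hv i).differentiableAt (hW.mem_nhds hy)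
    have h2 := (hasFDerivAt_pi'.mp hvy.hasFDerivAt) j
    rw [h2.fderiv]
    have h3 : u y = ∑ l, u y l • (Pi.single l (1 : ℂ) : Fin n → ℂ) := by
      conv_lhs => rw [← Finset.univ_sum_single (u y)]
      refine Finset.sum_congr rfl fun l _ => ?_
      rw [← Pi.single_smul, smul_eq_mul, mul_one]
    conv_lhs => rw [h3]
    rw [map_sum, Finset.sum_apply]
    refine Finset.sum_congr rfl fun l _ => ?_
    rw [map_smul]
    rfl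
  refine DifferentiableOn.congr ?_ h1
  exact DifferentiableOn.fun_sum fun l _ => (hu l).mul (hDer n _ W hW (hv j) _)

theorem brk_diff (hDer : S_Der) {W : Set (Fin n → ℂ)} (hW : IsOpen W)
    {u v : (Fin n → ℂ) → Fin n → ℂ} (hu : DifferentiableOn ℂ u W) (hv : DifferentiableOn ℂ v W) :
    DifferentiableOn ℂ (brk u v) W :=
  (fd_diff hDer hW hu hv).sub (fd_diff hDer hW hv hu)

/-- tangent fields near a point -/
def TanAt (M : Set X) (𝓕 : Ch n X → X → Submodule ℂ (Fin n → ℂ)) (φ : Ch n X) (x : X)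
    (u : (Fin n → ℂ) → Fin n → ℂ) : Prop := ∃ W, Tan M 𝓕 φ W u ∧ φ x ∈ W

section

variable {M : Set X} {𝓕 𝓕' : Ch n X → X → Submodule ℂ (Fin n → ℂ)} {r r' : ℕ} {φ ψ : Ch n X}
  {x : X}

theorem TanAt.diff {u : (Fin n → ℂ) → Fin n → ℂ} (h : TanAt M 𝓕 φ x u) :
    DifferentiableAt ℂ u (φ x) := by
  obtain ⟨W, hW, hx⟩ := h
  exact hW.2.1.differentiableAt (hW.1.1.mem_nhds hx)

theorem TanAt.add {u v : (Fin n → ℂ) → Fin n → ℂ} (h : TanAt M 𝓕 φ x u) (h' : TanAt M 𝓕 φ x v) :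
    TanAt M 𝓕 φ x (u + v) := by
  obtain ⟨W, hW, hx⟩ := h
  obtain ⟨W', hW', hx'⟩ := h'
  exact ⟨W ∩ W', ⟨Dom.inter hW.1 hW'.1.1, (hW.2.1.mono inter_subset_left).add (hW'.2.1.mono
    inter_subset_right), fun y hy => Submodule.add_mem _ (hW.2.2 y hy.1) (hW'.2.2 y hy.2)⟩,
    hx, hx'⟩

theorem TanAt.smul {u : (Fin n → ℂ) → Fin n → ℂ} (c : ℂ) (h : TanAt M 𝓕 φ x u) :
    TanAt M 𝓕 φ x (c • u) := by
  obtain ⟨W, hW, hx⟩ := h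
  exact ⟨W, ⟨hW.1, hW.2.1.const_smul c, fun y hy => Submodule.smul_mem _ _ (hW.2.2 y hy)⟩, hx⟩

theorem tanAt_sub_mem (hCr : S_Cramer) (hF : IsDist M 𝓕 r) (hφ : φ ∈ Charts n X)
    (hx : x ∈ φ.source) (hxM : x ∈ M) {u u' v v' : (Fin n → ℂ) → Fin n → ℂ}
    (h1 : TanAt M 𝓕 φ x u) (h2 : TanAt M 𝓕 φ x u') (h3 : TanAt M 𝓕 φ x v) (h4 : TanAt M 𝓕 φ x v')
    (hu : u (φ x) = u' (φ x)) (hv : v (φ x) = v' (φ x)) :
    brk u v (φ x) - brk u' v' (φ x) ∈ 𝓕 φ x := by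
  obtain ⟨W1, hW1, hx1⟩ := h1
  obtain ⟨W2, hW2, hx2⟩ := h2
  obtain ⟨W3, hW3, hx3⟩ := h3
  obtain ⟨W4, hW4, hx4⟩ := h4
  exact brk_sub_mem hCr hF hφ hx hxM hW1 hW2 hW3 hW4 hx1 hx2 hx3 hx4 hu hv

theorem ext_vec (hF : IsDist M 𝓕 r) (hφ : φ ∈ Charts n X) (hx : x ∈ φ.source) (hxM : x ∈ M)
    {v : Fin n → ℂ} (hv : v ∈ 𝓕 φ x) : ∃ u, TanAt M 𝓕 φ x u ∧ u (φ x) = v := by
  obtain ⟨W, e, hD, hxW, hH, hFr⟩ := hF.frame φ hφ x hx hxM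
  have he := (hFr _ hxW).2
  rw [φ.left_inv hx] at he
  rw [← he] at hv
  obtain ⟨c, hc⟩ := (Submodule.mem_span_range_iff_exists_fun ℂ).mp hv
  refine ⟨fun y => ∑ i, c i • e y i, ⟨W, ⟨hD, ?_, ?_⟩, hxW⟩, hc⟩
  · refine DifferentiableOn.fun_sum fun i _ => ?_
    have h1 : DifferentiableOn ℂ (fun y => e y i) W := differentiableOn_pi.mpr fun j => hH i j
    exact h1.const_smul (c i)
  · intro y hy
    rw [← (hFr y hy).2]
    exact Submodule.sum_mem _ fun i _ => Submodule.smul_mem _ _ (Submodule.subset_span ⟨i, rfl⟩)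

open Classical in
/-- an extension of the vector `v` to a tangent field -/
noncomputable def Ex (M : Set X) (𝓕 : Ch n X → X → Submodule ℂ (Fin n → ℂ)) (φ : Ch n X) (x : X)
    (v : Fin n → ℂ) : (Fin n → ℂ) → Fin n → ℂ :=
  if h : ∃ u, TanAt M 𝓕 φ x u ∧ u (φ x) = v then h.choose else 0

theorem Ex_spec (hF : IsDist M 𝓕 r) (hφ : φ ∈ Charts n X) (hx : x ∈ φ.source) (hxM : x ∈ M)
    {v : Fin n → ℂ} (hv : v ∈ 𝓕 φ x) : TanAt M 𝓕 φ x (Ex M 𝓕 φ x v) ∧ Ex M 𝓕 φ x v (φ x) = v := by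
  have h := ext_vec hF hφ hx hxM hv
  unfold Ex
  rw [dif_pos h]
  exact h.choose_spec

/-- the bracket of vectors, well defined modulo `𝓕` -/
noncomputable def bb (M : Set X) (𝓕 : Ch n X → X → Submodule ℂ (Fin n → ℂ)) (φ : Ch n X) (x : X)
    (a b : Fin n → ℂ) : Fin n → ℂ := brk (Ex M 𝓕 φ x a) (Ex M 𝓕 φ x b) (φ x)

theorem bb_eq (hCr : S_Cramer) (hF : IsDist M 𝓕 r) (hφ : φ ∈ Charts n X)
    (hx : x ∈ φ.source) (hxM : x ∈ M) {u v : (Fin n → ℂ) → Fin n → ℂ} (hu : TanAt M 𝓕 φ x u)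
    (hv : TanAt M 𝓕 φ x v) (hum : u (φ x) ∈ 𝓕 φ x) (hvm : v (φ x) ∈ 𝓕 φ x) :
    bb M 𝓕 φ x (u (φ x)) (v (φ x)) - brk u v (φ x) ∈ 𝓕 φ x := by
  have h1 := Ex_spec hF hφ hx hxM hum
  have h2 := Ex_spec hF hφ hx hxM hvm
  exact tanAt_sub_mem hCr hF hφ hx hxM h1.1 hu h2.1 hv h1.2 h2.2

theorem bb_mem (hF : IsDist M 𝓕 r) (hφ : φ ∈ Charts n X) (hx : x ∈ φ.source) (hxM : x ∈ M)
    (hB : ∀ φ ∈ Charts n X, ∀ W u v, Tan M 𝓕 φ W u → Tan M 𝓕 φ W v →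
      ∀ y ∈ W, brk u v y ∈ 𝓕' φ (φ.symm y)) {a b : Fin n → ℂ} (ha : a ∈ 𝓕 φ x) (hb : b ∈ 𝓕 φ x) :
    bb M 𝓕 φ x a b ∈ 𝓕' φ x := by
  obtain ⟨⟨W1, hW1, hx1⟩, -⟩ := Ex_spec hF hφ hx hxM ha
  obtain ⟨⟨W2, hW2, hx2⟩, -⟩ := Ex_spec hF hφ hx hxM hb
  have h := hB φ hφ (W1 ∩ W2) _ _ (Tan.mono hW1 (hW1.1.1.inter hW2.1.1) inter_subset_left)
    (Tan.mono hW2 (hW1.1.1.inter hW2.1.1) inter_subset_right) (φ x) ⟨hx1, hx2⟩
  rwa [φ.left_inv hx] at h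

theorem bb_add_left (hCr : S_Cramer) (hF : IsDist M 𝓕 r) (hφ : φ ∈ Charts n X)
    (hx : x ∈ φ.source) (hxM : x ∈ M) {a a' b : Fin n → ℂ} (ha : a ∈ 𝓕 φ x) (ha' : a' ∈ 𝓕 φ x)
    (hb : b ∈ 𝓕 φ x) :
    bb M 𝓕 φ x (a + a') b - (bb M 𝓕 φ x a b + bb M 𝓕 φ x a' b) ∈ 𝓕 φ x := by
  have h1 := Ex_spec hF hφ hx hxM ha
  have h2 := Ex_spec hF hφ hx hxM ha'
  have h3 := Ex_spec hF hφ hx hxM hb
  have h4 := Ex_spec hF hφ hx hxM (Submodule.add_mem _ ha ha')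
  unfold bb
  rw [← brk_add_left h1.1.diff h2.1.diff]
  refine tanAt_sub_mem hCr hF hφ hx hxM h4.1 (h1.1.add h2.1) h3.1 h3.1 ?_ rfl
  rw [h4.2, Pi.add_apply, h1.2, h2.2]

theorem bb_smul_left (hCr : S_Cramer) (hF : IsDist M 𝓕 r) (hφ : φ ∈ Charts n X)
    (hx : x ∈ φ.source) (hxM : x ∈ M) {a b : Fin n → ℂ} (c : ℂ) (ha : a ∈ 𝓕 φ x)
    (hb : b ∈ 𝓕 φ x) :
    bb M 𝓕 φ x (c • a) b - c • bb M 𝓕 φ x a b ∈ 𝓕 φ x := by
  have h1 := Ex_spec hF hφ hx hxM ha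
  have h3 := Ex_spec hF hφ hx hxM hb
  have h4 := Ex_spec hF hφ hx hxM (Submodule.smul_mem _ c ha)
  unfold bb
  rw [← brk_smul_left c h1.1.diff]
  refine tanAt_sub_mem hCr hF hφ hx hxM h4.1 (h1.1.smul c) h3.1 h3.1 ?_ rfl
  rw [h4.2, Pi.smul_apply, h1.2]

theorem bb_swap (a b : Fin n → ℂ) : bb M 𝓕 φ x a b = -bb M 𝓕 φ x b a := brk_swap _ _ _

theorem bb_add_right (hCr : S_Cramer) (hF : IsDist M 𝓕 r) (hφ : φ ∈ Charts n X)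
    (hx : x ∈ φ.source) (hxM : x ∈ M) {a b b' : Fin n → ℂ} (ha : a ∈ 𝓕 φ x) (hb : b ∈ 𝓕 φ x)
    (hb' : b' ∈ 𝓕 φ x) :
    bb M 𝓕 φ x a (b + b') - (bb M 𝓕 φ x a b + bb M 𝓕 φ x a b') ∈ 𝓕 φ x := by
  have h := Submodule.neg_mem _ (bb_add_left hCr hF hφ hx hxM hb hb' ha)
  have e : bb M 𝓕 φ x a (b + b') - (bb M 𝓕 φ x a b + bb M 𝓕 φ x a b') =
      -(bb M 𝓕 φ x (b + b') a - (bb M 𝓕 φ x b a + bb M 𝓕 φ x b' a)) := by
    rw [bb_swap a (b + b'), bb_swap a b, bb_swap a b']; abel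
  rw [e]; exact h

theorem bb_smul_right (hCr : S_Cramer) (hF : IsDist M 𝓕 r) (hφ : φ ∈ Charts n X)
    (hx : x ∈ φ.source) (hxM : x ∈ M) {a b : Fin n → ℂ} (c : ℂ) (ha : a ∈ 𝓕 φ x)
    (hb : b ∈ 𝓕 φ x) :
    bb M 𝓕 φ x a (c • b) - c • bb M 𝓕 φ x a b ∈ 𝓕 φ x := by
  have h := Submodule.neg_mem _ (bb_smul_left hCr hF hφ hx hxM c hb ha)
  have e : bb M 𝓕 φ x a (c • b) - c • bb M 𝓕 φ x a b =
      -(bb M 𝓕 φ x (c • b) a - c • bb M 𝓕 φ x b a) := by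
    rw [bb_swap a (c • b), bb_swap a b, smul_neg]; abel
  rw [e]; exact h

theorem nat_id (hF : IsDist M 𝓕 r) (hφ : φ ∈ Charts n X) (hψ : ψ ∈ Charts n X)
    (hx : x ∈ φ.source) (hx' : x ∈ ψ.source) (hxM : x ∈ M) :
    𝓕 ψ x = (𝓕 φ x).map (der id φ ψ x : (Fin n → ℂ) →ₗ[ℂ] (Fin n → ℂ)) :=
  hF.nat (Diffeomorph.refl 𝓘(ℂ, Fin n → ℂ) X ω) φ hφ ψ hψ x hx hxM hx'

theorem der_mem (hF : IsDist M 𝓕 r) (hφ : φ ∈ Charts n X) (hψ : ψ ∈ Charts n X)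
    (hx : x ∈ φ.source) (hx' : x ∈ ψ.source) (hxM : x ∈ M) {a : Fin n → ℂ} (ha : a ∈ 𝓕 φ x) :
    der id φ ψ x a ∈ 𝓕 ψ x := by
  rw [nat_id hF hφ hψ hx hx' hxM]
  exact ⟨a, ha, rfl⟩

theorem trans_contDiff (hφ : φ ∈ Charts n X) (hψ : ψ ∈ Charts n X)
    (hx : x ∈ φ.source) (hx' : x ∈ ψ.source) : ContDiffAt ℂ ω (ψ ∘ id ∘ φ.symm) (φ x) := by
  have h1 : φ.symm.trans ψ ∈ contDiffGroupoid ω 𝓘(ℂ, Fin n → ℂ) := by
    refine StructureGroupoid.compatible_of_mem_maximalAtlas ?_ ?_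
    · exact hφ
    · exact hψ
  rw [contDiffGroupoid, mem_groupoid_of_pregroupoid] at h1
  have h2 : ContDiffOn ℂ ω (ψ ∘ φ.symm) (φ.symm.trans ψ).source := by
    simpa [contDiffPregroupoid] using h1.1
  refine h2.contDiffAt ((φ.symm.trans ψ).open_source.mem_nhds ?_)
  simp [hx, hx']

/-- the bracket of vectors is natural modulo `𝓕` -/
theorem bb_nat (hCr : S_Cramer) (hCh : S_Chart n X) (hF : IsDist M 𝓕 r) (hφ : φ ∈ Charts n X)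
    (hψ : ψ ∈ Charts n X) (hx : x ∈ φ.source) (hx' : x ∈ ψ.source) (hxM : x ∈ M)
    {a b : Fin n → ℂ} (ha : a ∈ 𝓕 φ x) (hb : b ∈ 𝓕 φ x) :
    bb M 𝓕 ψ x (der id φ ψ x a) (der id φ ψ x b) - der id φ ψ x (bb M 𝓕 φ x a b) ∈ 𝓕 ψ x := by
  set Id : Aut n X := Diffeomorph.refl 𝓘(ℂ, Fin n → ℂ) X ω with hId
  have push : ∀ u, TanAt M 𝓕 φ x u → ∃ u₁, TanAt M 𝓕 ψ x u₁ ∧
      u₁ (ψ x) = der id φ ψ x (u (φ x)) ∧
      ∀ᶠ y in 𝓝 (φ x), u₁ ((ψ ∘ id ∘ φ.symm) y) = fderiv ℂ (ψ ∘ id ∘ φ.symm) y (u y) := by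
    rintro u ⟨W, hW, hxW⟩
    obtain ⟨hTo, -, hTH⟩ := hCh.2.2.2 Id φ hφ ψ hψ W hW.1.1 hW.1.2.1
    have hH := hTH 1 (fun y _ => u y) (fun i j => (differentiableOn_pi.mp hW.2.1) j)
    refine ⟨fun z => der id φ ψ (ψ.symm z) (u (φ (ψ.symm z))), ⟨Tr Id φ ψ W, ⟨⟨hTo, ?_, ?_⟩, ?_, ?_⟩,
      ?_⟩, ?_, ?_⟩
    · exact fun z hz => hz.1
    · intro z hz
      have h1 : φ (ψ.symm z) ∈ W := hz.2.2
      have h2 := hW.1.2.2 _ h1
      have h3 : ψ.symm z ∈ φ.source := hz.2.1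
      rwa [φ.left_inv h3] at h2
    · rw [differentiableOn_pi]
      intro j
      exact hH 0 j
    · intro z hz
      have h1 : φ (ψ.symm z) ∈ W := hz.2.2
      have h3 : ψ.symm z ∈ φ.source := hz.2.1
      have h2 := hW.1.2.2 _ h1
      rw [φ.left_inv h3] at h2
      have h4 := hW.2.2 _ h1
      rw [φ.left_inv h3] at h4
      exact der_mem hF hφ hψ h3 (ψ.map_target hz.1) h2 h4
    · refine ⟨ψ.map_source hx', ?_, ?_⟩
      · change ψ.symm (ψ x) ∈ φ.source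
        rwa [ψ.left_inv hx']
      · change φ (ψ.symm (ψ x)) ∈ W
        rwa [ψ.left_inv hx']
    · simp only
      rw [ψ.left_inv hx']
    · have h1 : ∀ᶠ y in 𝓝 (φ x), y ∈ (φ.symm.trans ψ).source := by
        refine (φ.symm.trans ψ).open_source.mem_nhds ?_
        simp [hx, hx']
      filter_upwards [h1] with y hy
      simp only [OpenPartialHomeomorph.trans_source, OpenPartialHomeomorph.symm_source,
        mem_inter_iff, mem_preimage] at hy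
      simp only [Function.comp_apply, id]
      rw [ψ.left_inv hy.2, φ.right_inv hy.1]
      unfold der
      rw [φ.right_inv hy.1]
  have h1 := Ex_spec hF hφ hx hxM ha
  have h2 := Ex_spec hF hφ hx hxM hb
  obtain ⟨u₁, hu₁, hux, hue⟩ := push _ h1.1
  obtain ⟨v₁, hv₁, hvx, hve⟩ := push _ h2.1
  have hτx : (ψ ∘ id ∘ φ.symm) (φ x) = ψ x := by
    simp only [Function.comp_apply, id]; rw [φ.left_inv hx]
  have h3 := brk_change (trans_contDiff hφ hψ hx hx') h1.1.diff h2.1.diff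
    (by rw [hτx]; exact hu₁.diff) (by rw [hτx]; exact hv₁.diff) hue hve
  rw [hτx] at h3
  have h4 := bb_eq hCr hF hψ hx' hxM hu₁ hv₁
    (by rw [hux, h1.2]; exact der_mem hF hφ hψ hx hx' hxM ha)
    (by rw [hvx, h2.2]; exact der_mem hF hφ hψ hx hx' hxM hb)
  rw [hux, hvx, h1.2, h2.2, h3] at h4
  exact h4

end

end Pool.Agent.Helper23.CX
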