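import Pool.Agent.Helper23.CX.Bk

/-! Mixed tensors on a pair of distributions. -/

set_option autoImplicit false
set_option linter.unusedSectionVars false

namespace Pool.Agent.Helper23.CX

open Metric Set Topology Pool.Agent.Helper91.CX
open scoped Manifold ContDiff

variable {n : ℕ} {X : Type} [TopologicalSpace X] [ChartedSpace (Fin n → ℂ) X]

/-- the distribution of the slot `k` -/
def Sl {κ : Type} [DecidableEq κ] (S : Finset κ)
    (𝓕 𝓕' : Ch n X → X → Submodule ℂ (Fin n → ℂ)) (k : κ) :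
    Ch n X → X → Submodule ℂ (Fin n → ℂ) := if k ∈ S then 𝓕' else 𝓕

/-- mixed tensors -/
structure MT {κ : Type} [Fintype κ] [DecidableEq κ] (S : Finset κ) (M' : Set X)
    (𝓕 𝓕' : Ch n X → X → Submodule ℂ (Fin n → ℂ)) (T : Ch n X → X → (κ → Fin n → ℂ) → ℂ) :
    Prop where
  add : ∀ φ ∈ Charts n X, ∀ x ∈ φ.source, x ∈ M' → ∀ w, (∀ k, w k ∈ Sl S 𝓕 𝓕' k φ x) →
    ∀ k, ∀ v ∈ Sl S 𝓕 𝓕' k φ x, ∀ v' ∈ Sl S 𝓕 𝓕' k φ x,
      T φ x (Function.update w k (v + v')) =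
        T φ x (Function.update w k v) + T φ x (Function.update w k v')
  smul : ∀ φ ∈ Charts n X, ∀ x ∈ φ.source, x ∈ M' → ∀ w, (∀ k, w k ∈ Sl S 𝓕 𝓕' k φ x) →
    ∀ k, ∀ v ∈ Sl S 𝓕 𝓕' k φ x, ∀ c : ℂ,
      T φ x (Function.update w k (c • v)) = c * T φ x (Function.update w k v)
  nat : ∀ φ ∈ Charts n X, ∀ ψ ∈ Charts n X, ∀ x ∈ φ.source, x ∈ ψ.source → x ∈ M' →
    ∀ w, (∀ k, w k ∈ Sl S 𝓕 𝓕' k φ x) → T ψ x (fun k => der id φ ψ x (w k)) = T φ x w
  hol : ∀ φ ∈ Charts n X, ∀ (W : Set (Fin n → ℂ)) (w : (Fin n → ℂ) → κ → Fin n → ℂ),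
    Dom φ M' W → (∀ k, DifferentiableOn ℂ (fun y => w y k) W) →
      (∀ y ∈ W, ∀ k, w y k ∈ Sl S 𝓕 𝓕' k φ (φ.symm y)) →
        DifferentiableOn ℂ (fun y => T φ (φ.symm y) (w y)) W

section

variable {κ : Type} [Fintype κ] [dκ : DecidableEq κ] {S : Finset κ} {M' : Set X}
  {𝓕 𝓕' : Ch n X → X → Submodule ℂ (Fin n → ℂ)} {T : Ch n X → X → (κ → Fin n → ℂ) → ℂ}

/-- the multilinear map of a mixed tensor -/
noncomputable def toML (h : MT S M' 𝓕 𝓕' T) (φ : Ch n X) (hφ : φ ∈ Charts n X) (x : X)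
    (hx : x ∈ φ.source) (hxM : x ∈ M') : MultilinearMap ℂ (fun k => Sl S 𝓕 𝓕' k φ x) ℂ where
  toFun w := T φ x (fun k => (w k : Fin n → ℂ))
  map_update_add' := by
    intro inst w k v v'
    have hi : inst = dκ := Subsingleton.elim _ _
    subst hi
    have hu : ∀ v : Sl S 𝓕 𝓕' k φ x, (fun k' => ((Function.update w k v k' :
        Sl S 𝓕 𝓕' k' φ x) : Fin n → ℂ)) =
        Function.update (fun k' => (w k' : Fin n → ℂ)) k (v : Fin n → ℂ) := by
      intro v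
      funext k'
      by_cases hk : k' = k
      · subst hk; simp
      · simp [hk]
    rw [hu, hu, hu]
    exact h.add φ hφ x hx hxM _ (fun k => (w k).2) k v v.2 v' v'.2
  map_update_smul' := by
    intro inst w k c v
    have hi : inst = dκ := Subsingleton.elim _ _
    subst hi
    have hu : ∀ v : Sl S 𝓕 𝓕' k φ x, (fun k' => ((Function.update w k v k' :
        Sl S 𝓕 𝓕' k' φ x) : Fin n → ℂ)) =
        Function.update (fun k' => (w k' : Fin n → ℂ)) k (v : Fin n → ℂ) := by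
      intro v
      funext k'
      by_cases hk : k' = k
      · subst hk; simp
      · simp [hk]
    rw [hu, hu]
    exact h.smul φ hφ x hx hxM _ (fun k => (w k).2) k v v.2 c

/-- multilinear expansion -/
theorem expand (h : MT S M' 𝓕 𝓕' T) {φ : Ch n X} (hφ : φ ∈ Charts n X) {x : X}
    (hx : x ∈ φ.source) (hxM : x ∈ M') {α : Type} [Fintype α] (b : κ → α → Fin n → ℂ)
    (hb : ∀ k a, b k a ∈ Sl S 𝓕 𝓕' k φ x) (c : κ → α → ℂ) :
    T φ x (fun k => ∑ a, c k a • b k a) =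
      ∑ I : κ → α, (∏ k, c k (I k)) * T φ x (fun k => b k (I k)) := by
  have h1 := (toML h φ hφ x hx hxM).map_sum
    (fun k a => (c k a • (⟨b k a, hb k a⟩ : Sl S 𝓕 𝓕' k φ x)))
  have h2 : (toML h φ hφ x hx hxM) (fun k => ∑ a, c k a • (⟨b k a, hb k a⟩ : Sl S 𝓕 𝓕' k φ x)) =
      T φ x (fun k => ∑ a, c k a • b k a) := by
    change T φ x (fun k => ((∑ a, c k a • (⟨b k a, hb k a⟩ : Sl S 𝓕 𝓕' k φ x) :
      Sl S 𝓕 𝓕' k φ x) : Fin n → ℂ)) = _
    congr 1
    funext k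
    simp
  rw [← h2, h1]
  refine Finset.sum_congr rfl fun I _ => ?_
  rw [MultilinearMap.map_smul_univ, smul_eq_mul]
  rfl

end

/-- a tensor over `M'` on a distribution over `M` without tensors vanishes -/
theorem base {κ : Type} [Fintype κ] [DecidableEq κ] [Nonempty κ] {M M' : Set X}
    {𝓕 𝓕' : Ch n X → X → Submodule ℂ (Fin n → ℂ)} {r : ℕ} (hSE : S_SecExt n X)
    (hF : IsDist M 𝓕 r) (hM'o : IsOpen M') (hM' : M' ⊆ M) (hMc : M ⊆ closure M')
    (hRem : Rem n M' M) (hno : ∀ N, 0 < N → NoSec (tenL r N) M 𝓕)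
    (T : Ch n X → X → (κ → Fin n → ℂ) → ℂ) (hT : MT ∅ M' 𝓕 𝓕' T) {φ : Ch n X}
    (hφ : φ ∈ Charts n X) {x : X} (hx : x ∈ φ.source) (hxM : x ∈ M') (w : κ → Fin n → ℂ)
    (hw : ∀ k, w k ∈ 𝓕 φ x) : T φ x w = 0 := by
  have hSl : ∀ k : κ, Sl ∅ 𝓕 𝓕' k = 𝓕 := fun k => by simp [Sl]
  let ε : κ ≃ Fin (Fintype.card κ) := Fintype.equivFin κ
  let s : Ch n X → X → (Fin r → Fin n → ℂ) → (tenL r (Fintype.card κ)).Ix → ℂ :=
    fun φ x e J => T φ x (fun k => e (J (ε k)))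
  have hmem : ∀ {φ : Ch n X} {x : X} {e : Fin r → Fin n → ℂ}, Fr 𝓕 φ x e → ∀ i, e i ∈ 𝓕 φ x := by
    intro φ x e he i
    rw [← he.2]; exact Submodule.subset_span ⟨i, rfl⟩
  have hs : IsSec (tenL r (Fintype.card κ)) M' 𝓕 s := by
    refine ⟨?_, ?_, ?_⟩
    · intro φ hφ x hx hxM e he C _ J
      have h1 := expand hT hφ hx hxM (α := Fin r) (fun k a => e a)
        (fun k a => by rw [hSl]; exact hmem he a) (fun k a => C (J (ε k)) a)
      change T φ x (fun k => ∑ j, C (J (ε k)) j • e j) = ∑ I : Fin (Fintype.card κ) → Fin r,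
        (∏ k, C (J k) (I k)) * T φ x (fun k => e (I (ε k)))
      rw [h1]
      refine Fintype.sum_equiv (Equiv.arrowCongr ε (Equiv.refl (Fin r))) _ _ fun I => ?_
      congr 1
      · refine Fintype.prod_equiv ε _ _ fun k => ?_
        simp [Equiv.arrowCongr]
      · congr 1
        funext k
        simp [Equiv.arrowCongr]
    · intro φ hφ ψ hψ x hx hx' hxM e he
      funext J
      exact hT.nat φ hφ ψ hψ x hx hx' hxM (fun k => e (J (ε k)))
        (fun k => by rw [hSl]; exact hmem he _)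
    · intro φ hφ W e hD hH hFr J
      refine hT.hol φ hφ W (fun y k => e y (J (ε k))) hD ?_ ?_
      · intro k
        exact differentiableOn_pi.mpr fun j => hH _ j
      · intro y hy k
        rw [hSl]; exact hmem (hFr y hy) _
  obtain ⟨s', hs', hss'⟩ := hSE M M' 𝓕 r _ s hF hM'o hM' hMc hRem hs
  obtain ⟨W, e, hD, hxW, hH, hFr⟩ := hF.frame φ hφ x hx (hM' hxM)
  have he : Fr 𝓕 φ x (e (φ x)) := by
    have := hFr _ hxW
    rwa [φ.left_inv hx] at this
  have hzero : ∀ J, s φ x (e (φ x)) J = 0 := by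
    intro J
    rw [← hss' φ hφ x hx hxM _ he]
    exact hno _ Fintype.card_pos s' hs' φ hφ x hx (hM' hxM) _ he J
  have hex : ∀ k, ∃ c : Fin r → ℂ, ∑ i, c i • e (φ x) i = w k := by
    intro k
    have := hw k
    rw [← he.2] at this
    exact (Submodule.mem_span_range_iff_exists_fun ℂ).mp this
  choose c hc using hex
  have h1 := expand hT hφ hx hxM (α := Fin r) (fun k a => e (φ x) a)
    (fun k a => by rw [hSl]; exact hmem he a) c
  simp only [hc] at h1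
  change T φ x w = _ at h1
  rw [h1]
  refine Finset.sum_eq_zero fun I _ => ?_
  have h2 := hzero (fun j => I (ε.symm j))
  change T φ x (fun k => e (φ x) (I (ε.symm (ε k)))) = 0 at h2
  simp only [Equiv.symm_apply_apply] at h2
  rw [h2, mul_zero]

end Pool.Agent.Helper23.CX
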