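import Pool.Agent.Helper23.CX.Ind

/-! Mixed tensors vanish: induction on the number of slots of the bigger distribution. -/

set_option autoImplicit false
set_option linter.unusedSectionVars false

namespace Pool.Agent.Helper23.CX

open Metric Set Topology Pool.Agent.Helper91.CX
open scoped Manifold ContDiff

variable {n : ℕ} {X : Type} [TopologicalSpace X] [ChartedSpace (Fin n → ℂ) X]

section step

variable {κ : Type} [Fintype κ] [dκ : DecidableEq κ] {S : Finset κ} {M' : Set X}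
  {𝓕 𝓕' : Ch n X → X → Submodule ℂ (Fin n → ℂ)} {T : Ch n X → X → (κ → Fin n → ℂ) → ℂ}
  {r r' : ℕ}

theorem Sl_mem {k : κ} (h : k ∈ S) : Sl S 𝓕 𝓕' k = 𝓕' := by simp [Sl, h]

theorem Sl_not {k : κ} (h : k ∉ S) : Sl S 𝓕 𝓕' k = 𝓕 := by simp [Sl, h]

theorem Sl_erase_le (hle : ∀ φ ∈ Charts n X, ∀ x ∈ φ.source, x ∈ M' → 𝓕 φ x ≤ 𝓕' φ x) (k₀ : κ)
    {φ : Ch n X} (hφ : φ ∈ Charts n X) {x : X} (hx : x ∈ φ.source) (hxM : x ∈ M') (k : κ) :
    Sl (S.erase k₀) 𝓕 𝓕' k φ x ≤ Sl S 𝓕 𝓕' k φ x := by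
  by_cases h : k ∈ S
  · rw [Sl_mem h]
    by_cases h' : k ∈ S.erase k₀
    · rw [Sl_mem h']
    · rw [Sl_not h']; exact hle φ hφ x hx hxM
  · rw [Sl_not h, Sl_not (fun h' => h (Finset.mem_of_mem_erase h'))]

theorem restrict (hle : ∀ φ ∈ Charts n X, ∀ x ∈ φ.source, x ∈ M' → 𝓕 φ x ≤ 𝓕' φ x) (k₀ : κ)
    (hT : MT S M' 𝓕 𝓕' T) : MT (S.erase k₀) M' 𝓕 𝓕' T := by
  refine ⟨?_, ?_, ?_, ?_⟩
  · intro φ hφ x hx hxM w hw k v hv v' hv'
    exact hT.add φ hφ x hx hxM w (fun k => Sl_erase_le hle k₀ hφ hx hxM k (hw k)) k v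
      (Sl_erase_le hle k₀ hφ hx hxM k hv) v' (Sl_erase_le hle k₀ hφ hx hxM k hv')
  · intro φ hφ x hx hxM w hw k v hv c
    exact hT.smul φ hφ x hx hxM w (fun k => Sl_erase_le hle k₀ hφ hx hxM k (hw k)) k v
      (Sl_erase_le hle k₀ hφ hx hxM k hv) c
  · intro φ hφ ψ hψ x hx hx' hxM w hw
    exact hT.nat φ hφ ψ hψ x hx hx' hxM w (fun k => Sl_erase_le hle k₀ hφ hx hxM k (hw k))
  · intro φ hφ W w hD hd hw
    exact hT.hol φ hφ W w hD hd fun y hy k =>
      Sl_erase_le hle k₀ hφ (φ.map_target (hD.2.1 hy)) (hD.2.2 y hy) k (hw y hy k)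

/-- the tensor with a bracket in the slot `k₀` -/
noncomputable def TB (M' : Set X) (𝓕 : Ch n X → X → Submodule ℂ (Fin n → ℂ))
    (T : Ch n X → X → (κ → Fin n → ℂ) → ℂ) (k₀ : κ) (φ : Ch n X) (x : X)
    (w : Option κ → Fin n → ℂ) : ℂ :=
  T φ x (Function.update (fun k => w (some k)) k₀ (bb M' 𝓕 φ x (w (some k₀)) (w none)))

/-- changes in `𝓕` of the slot `k₀` do not matter -/
theorem T_congr (hle : ∀ φ ∈ Charts n X, ∀ x ∈ φ.source, x ∈ M' → 𝓕 φ x ≤ 𝓕' φ x)
    (hT : MT S M' 𝓕 𝓕' T) {k₀ : κ} (hk₀ : k₀ ∈ S)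
    (hkill : ∀ φ ∈ Charts n X, ∀ x ∈ φ.source, x ∈ M' → ∀ w, (∀ k, w k ∈ Sl S 𝓕 𝓕' k φ x) →
      w k₀ ∈ 𝓕 φ x → T φ x w = 0) {φ : Ch n X} (hφ : φ ∈ Charts n X) {x : X} (hx : x ∈ φ.source)
    (hxM : x ∈ M') {w : κ → Fin n → ℂ} (hw : ∀ k, w k ∈ Sl S 𝓕 𝓕' k φ x) {p p' : Fin n → ℂ}
    (hp' : p' ∈ 𝓕' φ x) (h : p - p' ∈ 𝓕 φ x) :
    T φ x (Function.update w k₀ p) = T φ x (Function.update w k₀ p') := by
  have h1 : p = p' + (p - p') := by abel
  have hSk : Sl S 𝓕 𝓕' k₀ = 𝓕' := Sl_mem hk₀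
  have h2 : p - p' ∈ Sl S 𝓕 𝓕' k₀ φ x := by rw [hSk]; exact hle φ hφ x hx hxM h
  rw [h1, hT.add φ hφ x hx hxM w hw k₀ p' (by rw [hSk]; exact hp') (p - p') h2]
  have h3 : T φ x (Function.update w k₀ (p - p')) = 0 := by
    refine hkill φ hφ x hx hxM _ ?_ ?_
    · intro k
      by_cases hk : k = k₀
      · subst hk; rw [Function.update_self]; exact h2
      · rw [Function.update_of_ne hk]; exact hw k
    · rw [Function.update_self]; exact h
  rw [h3, add_zero]

theorem Sl_some {k₀ k : κ} :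
    Sl ((S.erase k₀).map Function.Embedding.some) 𝓕 𝓕' (some k) = Sl (S.erase k₀) 𝓕 𝓕' k := by
  unfold Sl
  simp only [Finset.mem_map, Function.Embedding.some_apply, Option.some.injEq,
    exists_eq_right]

theorem Sl_none {k₀ : κ} :
    Sl ((S.erase k₀).map Function.Embedding.some) 𝓕 𝓕' none = 𝓕 := by
  unfold Sl
  simp

theorem mt_TB (hCr : S_Cramer) (hCh : S_Chart n X) (hDer : S_Der) (hF : IsDist M' 𝓕 r)
    (hF' : IsDist M' 𝓕' r')
    (hle : ∀ φ ∈ Charts n X, ∀ x ∈ φ.source, x ∈ M' → 𝓕 φ x ≤ 𝓕' φ x)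
    (hB : ∀ φ ∈ Charts n X, ∀ W u v, Tan M' 𝓕 φ W u → Tan M' 𝓕 φ W v →
      ∀ y ∈ W, brk u v y ∈ 𝓕' φ (φ.symm y))
    (hT : MT S M' 𝓕 𝓕' T) {k₀ : κ} (hk₀ : k₀ ∈ S)
    (hkill : ∀ φ ∈ Charts n X, ∀ x ∈ φ.source, x ∈ M' → ∀ w, (∀ k, w k ∈ Sl S 𝓕 𝓕' k φ x) →
      w k₀ ∈ 𝓕 φ x → T φ x w = 0) :
    MT ((S.erase k₀).map Function.Embedding.some) M' 𝓕 𝓕' (TB M' 𝓕 T k₀) := by
  have hSk : Sl S 𝓕 𝓕' k₀ = 𝓕' := Sl_mem hk₀
  have hSe : Sl (S.erase k₀) 𝓕 𝓕' k₀ = 𝓕 := Sl_not (by simp)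
  -- admissible families
  have adm : ∀ {φ : Ch n X}, φ ∈ Charts n X → ∀ {x : X}, x ∈ φ.source → x ∈ M' →
      ∀ {w : Option κ → Fin n → ℂ},
      (∀ k, w k ∈ Sl ((S.erase k₀).map Function.Embedding.some) 𝓕 𝓕' k φ x) →
      (∀ k, w (some k) ∈ Sl S 𝓕 𝓕' k φ x) ∧ w (some k₀) ∈ 𝓕 φ x ∧ w none ∈ 𝓕 φ x := by
    intro φ hφ x hx hxM w hw
    refine ⟨fun k => ?_, ?_, ?_⟩
    · have := hw (some k)
      rw [Sl_some] at this
      exact Sl_erase_le hle k₀ hφ hx hxM k this
    · have := hw (some k₀)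
      rwa [Sl_some, hSe] at this
    · have := hw none
      rwa [Sl_none] at this
  have e_none : ∀ φ x (w : Option κ → Fin n → ℂ) v, TB M' 𝓕 T k₀ φ x (Function.update w none v) =
      T φ x (Function.update (fun k => w (some k)) k₀ (bb M' 𝓕 φ x (w (some k₀)) v)) := by
    intro φ x w v
    unfold TB
    simp
  have e_some0 : ∀ φ x (w : Option κ → Fin n → ℂ) v,
      TB M' 𝓕 T k₀ φ x (Function.update w (some k₀) v) =
      T φ x (Function.update (fun k => w (some k)) k₀ (bb M' 𝓕 φ x v (w none))) := by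
    intro φ x w v
    unfold TB
    congr 1
    funext k
    by_cases hk : k = k₀
    · subst hk; simp
    · rw [Function.update_of_ne hk, Function.update_of_ne hk, Function.update_of_ne (by simpa using hk)]
  have e_some : ∀ φ x (w : Option κ → Fin n → ℂ) v k₁, k₁ ≠ k₀ →
      TB M' 𝓕 T k₀ φ x (Function.update w (some k₁) v) =
      T φ x (Function.update (Function.update (fun k => w (some k)) k₀
        (bb M' 𝓕 φ x (w (some k₀)) (w none))) k₁ v) := by
    intro φ x w v k₁ hk₁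
    unfold TB
    congr 1
    funext k
    by_cases hk : k = k₀
    · subst hk
      rw [Function.update_self, Function.update_of_ne (Ne.symm hk₁), Function.update_self,
        Function.update_of_ne (by simpa using Ne.symm hk₁), Function.update_of_ne (by simp)]
    · rw [Function.update_of_ne hk]
      by_cases hk' : k = k₁
      · subst hk'; simp
      · rw [Function.update_of_ne (by simpa using hk'), Function.update_of_ne hk',
          Function.update_of_ne hk]
  have bmem : ∀ {φ : Ch n X}, φ ∈ Charts n X → ∀ {x : X}, x ∈ φ.source → x ∈ M' → ∀ {a b},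
      a ∈ 𝓕 φ x → b ∈ 𝓕 φ x → bb M' 𝓕 φ x a b ∈ 𝓕' φ x := fun hφ _ hx hxM _ _ ha hb =>
    bb_mem hF hφ hx hxM hB ha hb
  refine ⟨?_, ?_, ?_, ?_⟩
  · -- additivity
    intro φ hφ x hx hxM w hw k v hv v' hv'
    obtain ⟨h1, h2, h3⟩ := adm hφ hx hxM hw
    cases k with
    | none =>
      rw [Sl_none] at hv hv'
      rw [e_none, e_none, e_none]
      have hm1 := bmem hφ hx hxM h2 hv
      have hm2 := bmem hφ hx hxM h2 hv'
      rw [T_congr hle hT hk₀ hkill hφ hx hxM h1 (Submodule.add_mem _ hm1 hm2)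
        (bb_add_right hCr hF hφ hx hxM h2 hv hv')]
      exact hT.add φ hφ x hx hxM _ h1 k₀ _ (by rw [hSk]; exact hm1) _ (by rw [hSk]; exact hm2)
    | some k =>
      rw [Sl_some] at hv hv'
      by_cases hk : k = k₀
      · subst hk
        rw [hSe] at hv hv'
        rw [e_some0, e_some0, e_some0]
        have hm1 := bmem hφ hx hxM hv h3
        have hm2 := bmem hφ hx hxM hv' h3
        rw [T_congr hle hT hk₀ hkill hφ hx hxM h1 (Submodule.add_mem _ hm1 hm2)
          (bb_add_left hCr hF hφ hx hxM hv hv' h3)]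
        exact hT.add φ hφ x hx hxM _ h1 k _ (by rw [hSk]; exact hm1) _ (by rw [hSk]; exact hm2)
      · rw [e_some _ _ _ _ _ hk, e_some _ _ _ _ _ hk, e_some _ _ _ _ _ hk]
        refine hT.add φ hφ x hx hxM _ ?_ k _ (Sl_erase_le hle k₀ hφ hx hxM k hv) _
          (Sl_erase_le hle k₀ hφ hx hxM k hv')
        intro k'
        by_cases hk' : k' = k₀
        · subst hk'; rw [Function.update_self, hSk]; exact bmem hφ hx hxM h2 h3
        · rw [Function.update_of_ne hk']; exact h1 k'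
  · -- homogeneity
    intro φ hφ x hx hxM w hw k v hv c
    obtain ⟨h1, h2, h3⟩ := adm hφ hx hxM hw
    cases k with
    | none =>
      rw [Sl_none] at hv
      rw [e_none, e_none]
      have hm1 := bmem hφ hx hxM h2 hv
      rw [T_congr hle hT hk₀ hkill hφ hx hxM h1 (Submodule.smul_mem _ c hm1)
        (bb_smul_right hCr hF hφ hx hxM c h2 hv)]
      exact hT.smul φ hφ x hx hxM _ h1 k₀ _ (by rw [hSk]; exact hm1) c
    | some k =>
      rw [Sl_some] at hv
      by_cases hk : k = k₀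
      · subst hk
        rw [hSe] at hv
        rw [e_some0, e_some0]
        have hm1 := bmem hφ hx hxM hv h3
        rw [T_congr hle hT hk₀ hkill hφ hx hxM h1 (Submodule.smul_mem _ c hm1)
          (bb_smul_left hCr hF hφ hx hxM c hv h3)]
        exact hT.smul φ hφ x hx hxM _ h1 k _ (by rw [hSk]; exact hm1) c
      · rw [e_some _ _ _ _ _ hk, e_some _ _ _ _ _ hk]
        refine hT.smul φ hφ x hx hxM _ ?_ k _ (Sl_erase_le hle k₀ hφ hx hxM k hv) c
        intro k'
        by_cases hk' : k' = k₀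
        · subst hk'; rw [Function.update_self, hSk]; exact bmem hφ hx hxM h2 h3
        · rw [Function.update_of_ne hk']; exact h1 k'
  · -- naturality
    intro φ hφ ψ hψ x hx hx' hxM w hw
    obtain ⟨h1, h2, h3⟩ := adm hφ hx hxM hw
    unfold TB
    have hSlnat : ∀ k, ∀ v ∈ Sl S 𝓕 𝓕' k φ x, der id φ ψ x v ∈ Sl S 𝓕 𝓕' k ψ x := by
      intro k v hv
      by_cases h : k ∈ S
      · rw [Sl_mem h] at hv ⊢; exact der_mem hF' hφ hψ hx hx' hxM hv
      · rw [Sl_not h] at hv ⊢; exact der_mem hF hφ hψ hx hx' hxM hv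
    have hm := bmem hφ hx hxM h2 h3
    rw [T_congr hle hT hk₀ hkill hψ hx' hxM (w := fun k => der id φ ψ x (w (some k)))
      (p' := der id φ ψ x (bb M' 𝓕 φ x (w (some k₀)) (w none)))
      (fun k => hSlnat k _ (h1 k)) (der_mem hF' hφ hψ hx hx' hxM hm)
      (bb_nat hCr hCh hF hφ hψ hx hx' hxM h2 h3)]
    rw [← hT.nat φ hφ ψ hψ x hx hx' hxM (Function.update (fun k => w (some k)) k₀
      (bb M' 𝓕 φ x (w (some k₀)) (w none)))]
    · congr 1
      funext k
      by_cases hk : k = k₀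
      · subst hk; simp
      · rw [Function.update_of_ne hk, Function.update_of_ne hk]
    · intro k'
      by_cases hk' : k' = k₀
      · subst hk'; rw [Function.update_self, hSk]; exact hm
      · rw [Function.update_of_ne hk']; exact h1 k'
  · -- holomorphy
    intro φ hφ W w hD hd hw
    have hTan : ∀ k, (∀ y ∈ W, w y k ∈ 𝓕 φ (φ.symm y)) → Tan M' 𝓕 φ W (fun y => w y k) :=
      fun k hk => ⟨hD, hd k, hk⟩
    have hadm := fun y (hy : y ∈ W) => adm hφ (φ.map_target (hD.2.1 hy)) (hD.2.2 y hy) (hw y hy)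
    have hu := hTan (some k₀) fun y hy => (hadm y hy).2.1
    have hv := hTan none fun y hy => (hadm y hy).2.2
    have hbm := hB φ hφ W _ _ hu hv
    have heq : ∀ y ∈ W, TB M' 𝓕 T k₀ φ (φ.symm y) (w y) = T φ (φ.symm y)
        (Function.update (fun k => w y (some k)) k₀
          (brk (fun y => w y (some k₀)) (fun y => w y none) y)) := by
      intro y hy
      have hys := φ.map_target (hD.2.1 hy)
      have hyM := hD.2.2 y hy
      have hyr : φ (φ.symm y) = y := φ.right_inv (hD.2.1 hy)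
      unfold TB
      refine T_congr hle hT hk₀ hkill hφ hys hyM (hadm y hy).1 (hbm y hy) ?_
      have h1 := bb_eq hCr hF hφ hys hyM (u := fun y => w y (some k₀)) (v := fun y => w y none)
        ⟨W, hu, by rw [hyr]; exact hy⟩ ⟨W, hv, by rw [hyr]; exact hy⟩
        (by rw [hyr]; exact (hadm y hy).2.1)
        (by rw [hyr]; exact (hadm y hy).2.2)
      rw [hyr] at h1
      exact h1
    refine DifferentiableOn.congr ?_ heq
    refine hT.hol φ hφ W (fun y => Function.update (fun k => w y (some k)) k₀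
      (brk (fun y => w y (some k₀)) (fun y => w y none) y)) hD ?_ ?_
    · intro k
      by_cases hk : k = k₀
      · subst hk
        simp only [Function.update_self]
        exact brk_diff hDer hD.1 (hd _) (hd _)
      · simp only [Function.update_of_ne hk]
        exact hd _
    · intro y hy k
      by_cases hk : k = k₀
      · subst hk
        rw [Function.update_self, hSk]
        exact hbm y hy
      · rw [Function.update_of_ne hk]
        exact (hadm y hy).1 k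

end step

end Pool.Agent.Helper23.CX
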